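import Mathlib
import Pool.Agent.H495R2.Dk.Basic

/-!
Residues at which the linear forms have prescribed exponents at the primes of a squarefree number,
and other forms have bounded exponents.
-/

set_option autoImplicit false

namespace Pool.Agent.Y887.DE

open Finset
open Pool.Agent.H410R2.ED (om)
open Pool.Agent.H495R2.Dk (NF)

theorem fac_eq {p n w : ℕ} (hp : p.Prime) (h1 : p ^ w ∣ n) (h2 : ¬ p ^ (w + 1) ∣ n) :
    n.factorization p = w := by
  have hn : n ≠ 0 := by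
    rintro rfl
    exact h2 (dvd_zero _)
  have h3 := (hp.pow_dvd_iff_le_factorization hn).1 h1
  have h4 : ¬ w + 1 ≤ n.factorization p := fun h => h2 ((hp.pow_dvd_iff_le_factorization hn).2 h)
  omega

theorem root_pow {p : ℕ} (hp : p.Prime) {a : ℕ} (ha : ¬ p ∣ a) (b m : ℕ) :
    ∃ x, p ^ m ∣ a * x + b := by
  have hcop : Nat.Coprime a (p ^ m) := ((Nat.Prime.coprime_iff_not_dvd hp).2 ha).symm.pow_right m
  have : NeZero (p ^ m) := ⟨pow_ne_zero _ hp.ne_zero⟩
  have h1 : (a : ZMod (p ^ m)) * (a : ZMod (p ^ m))⁻¹ = 1 := ZMod.coe_mul_inv_eq_one a hcop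
  refine ⟨((-(b : ZMod (p ^ m))) * (a : ZMod (p ^ m))⁻¹).val, ?_⟩
  rw [← ZMod.natCast_eq_zero_iff]
  push_cast
  rw [ZMod.natCast_val, ZMod.cast_id]
  have h2 : (a : ZMod (p ^ m)) * (-(b : ZMod (p ^ m)) * (a : ZMod (p ^ m))⁻¹) + b =
      -(b : ZMod (p ^ m)) * ((a : ZMod (p ^ m)) * (a : ZMod (p ^ m))⁻¹) + b := by ring
  rw [h2, h1]
  ring

theorem one_prime {k : ℕ} {α β : Fin k → ℕ} {p : ℕ} (hp : p.Prime) (hα : ∀ l, ¬ p ∣ α l)
    (hdet : ∀ i j, i ≠ j → ∀ y, p ∣ α i * y + β i → ¬ p ∣ α j * y + β j)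
    {Pi0 : Type} [Fintype Pi0] (A B : Pi0 → ℤ) (hA : ∀ P, ¬ (p : ℤ) ^ 2 ∣ A P)
    (hbig : k + Fintype.card Pi0 < p) (w : Fin k → ℕ) (hw : ∀ i j, w i ≠ 0 → w j ≠ 0 → i = j)
    (mm : ℕ) (hmm : ∀ i, w i ≤ mm) :
    ∃ c : ℕ, ∀ y, y ≡ c [MOD p ^ (mm + 2)] → (∀ l, (α l * y + β l).factorization p = w l) ∧
      ∀ P, ¬ (p : ℤ) ^ (mm + 2) ∣ A P * y + B P := by
  classical
  obtain ⟨m, y1, hm, hy1, hwm, hex⟩ : ∃ m y1 : ℕ, m ≤ mm ∧ (∀ l, p ^ w l ∣ α l * y1 + β l) ∧
      (∀ l, w l = 0 ∨ w l = m) ∧ (m = 0 ∨ ∃ l, w l = m) := by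
    by_cases h : ∃ l, w l ≠ 0
    · obtain ⟨l0, hl0⟩ := h
      obtain ⟨y1, hy1⟩ := root_pow hp (hα l0) (β l0) (w l0)
      refine ⟨w l0, y1, hmm l0, fun l => ?_, fun l => ?_, Or.inr ⟨l0, rfl⟩⟩
      · by_cases hl : w l = 0
        · rw [hl, pow_zero]; exact one_dvd _
        · rw [hw l l0 hl hl0]; exact hy1
      · by_cases hl : w l = 0
        · exact Or.inl hl
        · rw [hw l l0 hl hl0]; exact Or.inr rfl
    · push Not at h
      refine ⟨0, 0, Nat.zero_le _, fun l => ?_, fun l => Or.inl (h l), Or.inl rfl⟩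
      rw [h l, pow_zero]; exact one_dvd _
  have hpm : (p : ℤ) ^ m ≠ 0 := pow_ne_zero _ (by exact_mod_cast hp.ne_zero)
  -- the good translate
  obtain ⟨t, ht1, ht2⟩ : ∃ t : ℕ, (∀ l, ¬ (p : ℤ) ^ (m + 1) ∣ α l * ((y1 : ℤ) + p ^ m * t) + β l) ∧
      ∀ P, ¬ (p : ℤ) ^ (m + 2) ∣ A P * ((y1 : ℤ) + p ^ m * t) + B P := by
    by_contra hcon
    have h1 : ∀ t : Fin p, ∃ x : Fin k ⊕ Pi0, match x with
        | Sum.inl l => (p : ℤ) ^ (m + 1) ∣ α l * ((y1 : ℤ) + p ^ m * (t : ℕ)) + β l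
        | Sum.inr P => (p : ℤ) ^ (m + 2) ∣ A P * ((y1 : ℤ) + p ^ m * (t : ℕ)) + B P := by
      intro t
      by_contra h2
      push Not at h2
      apply hcon
      exact ⟨t, fun l => h2 (Sum.inl l), fun P => h2 (Sum.inr P)⟩
    choose φ hφ using h1
    obtain ⟨t, t', htt, hff⟩ := Fintype.exists_ne_map_eq_of_card_lt φ (by
      simp only [Fintype.card_sum, Fintype.card_fin]
      exact hbig)
    have hnd : ¬ (p : ℤ) ∣ ((t : ℕ) : ℤ) - ((t' : ℕ) : ℤ) := by
      intro h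
      have h2 := t.2
      have h3 := t'.2
      have h4 : ((t : ℕ) : ℤ) - ((t' : ℕ) : ℤ) = 0 := by
        apply Int.eq_zero_of_abs_lt_dvd h
        rw [abs_lt]
        constructor <;> omega
      apply htt
      apply Fin.ext
      omega
    have h2 := hφ t
    have h3 := hφ t'
    rw [← hff] at h3
    cases hx : φ t with
    | inl l =>
      rw [hx] at h2 h3
      simp only at h2 h3
      have h4 := dvd_sub h2 h3
      have e1 : (α l : ℤ) * ((y1 : ℤ) + p ^ m * (t : ℕ)) + β l -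
          (α l * ((y1 : ℤ) + p ^ m * (t' : ℕ)) + β l) =
          (p : ℤ) ^ m * (α l * (((t : ℕ) : ℤ) - ((t' : ℕ) : ℤ))) := by ring
      rw [e1, pow_succ] at h4
      have h5 := (mul_dvd_mul_iff_left hpm).1 h4
      rcases (Nat.prime_iff_prime_int.1 hp).dvd_or_dvd h5 with h6 | h6
      · exact hα l (by exact_mod_cast h6)
      · exact hnd h6
    | inr P =>
      rw [hx] at h2 h3
      simp only at h2 h3
      have h4 := dvd_sub h2 h3
      have e1 : A P * ((y1 : ℤ) + p ^ m * (t : ℕ)) + B P -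
          (A P * ((y1 : ℤ) + p ^ m * (t' : ℕ)) + B P) =
          (p : ℤ) ^ m * (A P * (((t : ℕ) : ℤ) - ((t' : ℕ) : ℤ))) := by ring
      rw [e1, pow_add] at h4
      have h5 := (mul_dvd_mul_iff_left hpm).1 h4
      have hcop : IsCoprime ((p : ℤ) ^ 2) (((t : ℕ) : ℤ) - ((t' : ℕ) : ℤ)) := by
        apply IsCoprime.pow_left
        exact (Prime.coprime_iff_not_dvd (Nat.prime_iff_prime_int.1 hp)).2 hnd
      exact hA P (hcop.dvd_of_dvd_mul_right h5)
  refine ⟨y1 + p ^ m * t, fun y hy => ?_⟩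
  have hyd : (p : ℤ) ^ (mm + 2) ∣ (y : ℤ) - ((y1 : ℤ) + p ^ m * t) := by
    have h1 := (Nat.modEq_iff_dvd).1 hy.symm
    push_cast at h1
    exact h1
  have hval : ∀ l, (p : ℤ) ^ (mm + 2) ∣ (α l * (y : ℤ) + β l) -
      (α l * ((y1 : ℤ) + p ^ m * t) + β l) := by
    intro l
    have e1 : (α l * (y : ℤ) + β l) - (α l * ((y1 : ℤ) + p ^ m * t) + β l) =
        α l * ((y : ℤ) - ((y1 : ℤ) + p ^ m * t)) := by ring
    rw [e1]
    exact hyd.mul_left _
  have hnot : ∀ l, ¬ p ^ (m + 1) ∣ α l * y + β l := by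
    intro l hd
    apply ht1 l
    have h1 : (p : ℤ) ^ (m + 1) ∣ (α l * (y : ℤ) + β l) := by exact_mod_cast hd
    have h2 := dvd_sub h1 ((pow_dvd_pow _ (by omega)).trans (hval l))
    rwa [sub_sub_cancel] at h2
  have hyes : ∀ l, p ^ w l ∣ α l * y + β l := by
    intro l
    have h1 : (p : ℤ) ^ w l ∣ α l * ((y1 : ℤ) + p ^ m * t) + β l := by
      have h2 : (p : ℤ) ^ w l ∣ (α l * y1 + β l : ℤ) := by exact_mod_cast hy1 l
      have h3 : (p : ℤ) ^ w l ∣ (p : ℤ) ^ m := pow_dvd_pow _ (by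
        rcases hwm l with h | h <;> omega)
      have e1 : (α l : ℤ) * ((y1 : ℤ) + p ^ m * t) + β l =
          (α l * y1 + β l) + p ^ m * (α l * t) := by ring
      rw [e1]
      exact dvd_add h2 (h3.mul_right _)
    have h2 : (p : ℤ) ^ w l ∣ (α l * (y : ℤ) + β l) := by
      have h3 := dvd_add ((pow_dvd_pow _ (by have := hmm l; omega)).trans (hval l)) h1
      rwa [sub_add_cancel] at h3
    exact_mod_cast h2
  refine ⟨fun l => ?_, fun P hd => ?_⟩
  · apply fac_eq hp (hyes l)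
    rcases hwm l with h | h
    · rw [h]
      rcases hex with h0 | ⟨l0, hl0⟩
      · have := hnot l
        rwa [h0] at this
      · by_cases hm0 : m = 0
        · have := hnot l
          rwa [hm0] at this
        · intro hd
          rw [zero_add, pow_one] at hd
          have hne : l0 ≠ l := by
            rintro rfl
            omega
          apply hdet l0 l hne y _ hd
          have h3 := hyes l0
          rw [hl0] at h3
          exact (dvd_pow_self p hm0).trans h3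
    · rw [h]
      exact hnot l
  · apply ht2 P
    have h1 : (p : ℤ) ^ (m + 2) ∣ A P * y + B P := (pow_dvd_pow _ (by omega)).trans hd
    have h2 : (p : ℤ) ^ (m + 2) ∣ (A P * y + B P) - (A P * ((y1 : ℤ) + p ^ m * t) + B P) := by
      have e1 : (A P * y + B P) - (A P * ((y1 : ℤ) + p ^ m * t) + B P) =
          A P * ((y : ℤ) - ((y1 : ℤ) + p ^ m * t)) := by ring
      rw [e1]
      exact ((pow_dvd_pow _ (by omega)).trans hyd).mul_left _
    have h3 := dvd_sub h1 h2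
    rwa [sub_sub_cancel] at h3

theorem residue2 {k Bd D : ℕ} {α β : Fin k → ℕ} (hN : NF k Bd D α β) {h : ℕ}
    (hsq : Squarefree h) (hcop : Nat.Coprime h D) {Pi0 : Type} [Fintype Pi0] (A B : Pi0 → ℤ)
    (hA : ∀ P, ∀ p : ℕ, p.Prime → p ∣ h → ¬ (p : ℤ) ^ 2 ∣ A P)
    (hbig : ∀ p : ℕ, p.Prime → p ∣ h → k + Fintype.card Pi0 < p)
    (L : Fin k → List ℕ) (mm : ℕ) (hL : ∀ l, ∀ m ∈ L l, m ≤ mm)
    (hcard : ∑ l, (L l).length ≤ om h) :
    ∃ y0 : ℕ, ∀ y, y ≡ y0 [MOD h ^ (mm + 2)] →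
      (∀ {Δ : Type} [CommMonoid Δ] (g : ℕ → Δ), g 0 = 1 → ∀ l,
        ∏ p ∈ h.primeFactors, g ((α l * y + β l).factorization p) = ((L l).map g).prod) ∧
      ∀ P, ∀ p : ℕ, p.Prime → p ∣ h → ¬ (p : ℤ) ^ (mm + 2) ∣ A P * y + B P := by
  classical
  have hc : Fintype.card (Σ l : Fin k, Fin (L l).length) ≤ Fintype.card h.primeFactors := by
    unfold om at hcard
    simpa using hcard
  obtain ⟨emb⟩ := Function.Embedding.nonempty_of_card_le hc
  obtain ⟨w, hw⟩ : ∃ w : ℕ → Fin k → ℕ, ∀ p l, w p l =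
      if hx : ∃ j : Fin (L l).length, ((emb ⟨l, j⟩ : h.primeFactors) : ℕ) = p then
        (L l).get hx.choose else 0 := ⟨_, fun _ _ => rfl⟩
  have hw0 : ∀ p l, w p l ≠ 0 → ∃ j : Fin (L l).length, ((emb ⟨l, j⟩ : h.primeFactors) : ℕ) = p := by
    intro p l h0
    by_contra hx
    apply h0
    rw [hw, dif_neg hx]
  have hwe : ∀ l (j : Fin (L l).length), w ((emb ⟨l, j⟩ : h.primeFactors) : ℕ) l = (L l).get j := by
    intro l j
    have hx : ∃ j' : Fin (L l).length, ((emb ⟨l, j'⟩ : h.primeFactors) : ℕ) =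
        ((emb ⟨l, j⟩ : h.primeFactors) : ℕ) := ⟨j, rfl⟩
    rw [hw, dif_pos hx]
    have h2 := emb.injective (Subtype.ext hx.choose_spec)
    have h3 : hx.choose = j := by simpa using h2
    rw [h3]
  have hwinj : ∀ p i j, w p i ≠ 0 → w p j ≠ 0 → i = j := by
    intro p i j hi hj
    obtain ⟨x, hx⟩ := hw0 p i hi
    obtain ⟨x', hx'⟩ := hw0 p j hj
    have h2 := emb.injective (Subtype.ext (hx.trans hx'.symm))
    exact congrArg Sigma.fst h2
  have hwmm : ∀ p l, w p l ≤ mm := by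
    intro p l
    by_cases h0 : w p l = 0
    · omega
    · obtain ⟨j, hj⟩ := hw0 p l h0
      rw [← hj, hwe]
      exact hL l _ (List.get_mem _ _)
  have hpD : ∀ p : ℕ, p.Prime → p ∣ h → ¬ p ∣ D := by
    intro p hp hph hpD
    have h1 := Nat.dvd_gcd hph hpD
    rw [hcop] at h1
    exact hp.one_lt.ne' (Nat.dvd_one.1 h1)
  have hres : ∀ p : ℕ, ∃ c : ℕ, p ∈ h.primeFactors → ∀ y, y ≡ c [MOD p ^ (mm + 2)] →
      (∀ l, (α l * y + β l).factorization p = w p l) ∧
      ∀ P, ¬ (p : ℤ) ^ (mm + 2) ∣ A P * y + B P := by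
    intro p
    by_cases hp : p ∈ h.primeFactors
    · have hpp := Nat.prime_of_mem_primeFactors hp
      have hph := Nat.dvd_of_mem_primeFactors hp
      obtain ⟨c, hc⟩ := one_prime hpp (fun l hd => hpD p hpp hph (hN.rad l p hpp hd))
        (by
          intro i j hij y h1 h2
          apply hpD p hpp hph
          apply hN.det i j p hij hpp
          have := Fact.mk hpp
          rw [← ZMod.natCast_eq_natCast_iff]
          have h3 : ((α i : ZMod p)) * y + β i = 0 := by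
            have := (ZMod.natCast_eq_zero_iff (α i * y + β i) p).2 h1
            exact_mod_cast this
          have h4 : ((α j : ZMod p)) * y + β j = 0 := by
            have := (ZMod.natCast_eq_zero_iff (α j * y + β j) p).2 h2
            exact_mod_cast this
          push_cast
          linear_combination (α i : ZMod p) * h4 - (α j : ZMod p) * h3)
        A B (fun P => hA P p hpp hph) (hbig p hpp hph) (w p) (hwinj p) mm (hwmm p)
      exact ⟨c, fun _ => hc⟩
    · exact ⟨0, fun h => absurd h hp⟩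
  choose cp hcp using hres
  obtain ⟨y0, hy0⟩ := Nat.chineseRemainderOfFinset cp (fun p => p ^ (mm + 2)) h.primeFactors
    (fun p hp => pow_ne_zero _ (Nat.prime_of_mem_primeFactors hp).ne_zero)
    (fun p hp q hq hpq => Nat.Coprime.pow _ _ ((Nat.coprime_primes (Nat.prime_of_mem_primeFactors hp)
      (Nat.prime_of_mem_primeFactors hq)).2 hpq))
  refine ⟨y0, fun y hy => ?_⟩
  have hyp : ∀ p ∈ h.primeFactors, y ≡ cp p [MOD p ^ (mm + 2)] := by
    intro p hp
    exact (hy.of_dvd (pow_dvd_pow_of_dvd (Nat.dvd_of_mem_primeFactors hp) _)).trans (hy0 p hp)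
  refine ⟨?_, ?_⟩
  · intro Δ _ g hg l
    rw [prod_congr rfl (fun p hp => by rw [(hcp p hp y (hyp p hp)).1 l])]
    have hsub : univ.image (fun j : Fin (L l).length => ((emb ⟨l, j⟩ : h.primeFactors) : ℕ)) ⊆
        h.primeFactors := by
      intro p hp
      obtain ⟨j, -, rfl⟩ := mem_image.1 hp
      exact (emb ⟨l, j⟩).2
    rw [← prod_subset hsub (by
      intro p _ hp
      have : w p l = 0 := by
        by_contra h0
        obtain ⟨j, hj⟩ := hw0 p l h0
        exact hp (mem_image.2 ⟨j, mem_univ _, hj⟩)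
      rw [this, hg])]
    rw [prod_image (by
      intro j _ j' _ hjj
      have h2 := emb.injective (Subtype.ext hjj)
      simpa using h2)]
    rw [prod_congr rfl (fun j _ => by rw [hwe])]
    rw [← List.prod_ofFn]
    congr 1
    conv_rhs => rw [← List.ofFn_get (L l)]
    rw [List.map_ofFn]
    rfl
  · intro P p hp hph
    have hpm : p ∈ h.primeFactors := Nat.mem_primeFactors.2 ⟨hp, hph, hsq.ne_zero⟩
    exact (hcp p hpm y (hyp p hpm)).2 P

end Pool.Agent.Y887.DE
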