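import Mathlib
import Pool.Agent.H658R2.ED_T2
import Pool.Agent.Y887.DK.Gad
import Pool.Agent.Y887.DE.Rs

/-!
Restriction of linear forms to a progression on which they have prescribed additional prime powers.
-/

set_option autoImplicit false

namespace Pool.Agent.Y887.DE

open Finset Pool.Agent.Y887.DK
open Pool.Agent.H658R2.ED (exists_crt_add)

theorem solve_lin {a b c m : ℕ} (hm : 0 < m) (h : Nat.Coprime a m) :
    ∃ x, a * x + b ≡ c [MOD m] := by
  have : NeZero m := ⟨hm.ne'⟩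
  have h1 : (a : ZMod m) * (a : ZMod m)⁻¹ = 1 := by
    exact ZMod.coe_mul_inv_eq_one a h
  refine ⟨((c : ZMod m) - b) * (a : ZMod m)⁻¹ |>.val, ?_⟩
  rw [← ZMod.natCast_eq_natCast_iff]
  push_cast
  rw [ZMod.natCast_val, ZMod.cast_id]
  linear_combination ((c : ZMod m) - b) * h1

set_option maxHeartbeats 1000000 in
theorem eqz2 (V : Finset (ℕ × ℕ)) (Q X : ℕ) (ex : ℕ × ℕ → List ℕ) (hQ : 0 < Q)
    (hV : ∀ v ∈ V, 0 < v.1 ∧ 0 < v.2 ∧ Nat.Coprime v.1 v.2)
    (hnp : ∀ v ∈ V, ∀ w ∈ V, v ≠ w → v.1 * w.2 ≠ w.1 * v.2)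
    (hlow : ∀ v ∈ V, ∀ p : ℕ, p.Prime → p ∣ Q →
      (v.1 * X + v.2).factorization p < Q.factorization p)
    (hex : ∀ v ∈ V, ∀ m ∈ ex v, 1 ≤ m) :
    ∃ (Q' X' : ℕ) (c a d : ℕ × ℕ → ℕ), 0 < Q' ∧ Q ∣ Q' ∧ X' ≡ X [MOD Q] ∧
      ∀ v ∈ V, 0 < c v ∧
        (∀ {Δ : Type} [CommMonoid Δ] (g : ℕ → Δ), g 0 = 1 → Fm g (c v) =
          (∏ p ∈ Q.primeFactors, g ((v.1 * X + v.2).factorization p)) * ((ex v).map g).prod) ∧
        0 < a v ∧ Nat.Coprime (a v) (d v) ∧ v.1 ∣ a v ∧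
        (∀ p, p.Prime → p ∣ Q' → p ∣ a v) ∧ c v ∣ Q' ∧
        ∀ n, v.1 * (Q' * n + X') + v.2 = c v * (a v * n + d v) := by
  classical
  obtain ⟨B, hB⟩ : ∃ B : ℕ, B = Q + ∑ v ∈ V, ∑ w ∈ V, (v.1 * w.2) + ∑ v ∈ V, v.1 := ⟨_, rfl⟩
  have hB1 : Q ≤ B := by omega
  have hB2 : ∀ v ∈ V, v.1 ≤ B := by
    intro v hv
    have := Finset.single_le_sum (f := fun v : ℕ × ℕ => v.1) (fun _ _ => Nat.zero_le _) hv
    omega
  have hB3 : ∀ v ∈ V, ∀ w ∈ V, v.1 * w.2 ≤ B := by
    intro v hv w hw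
    have h1 := Finset.single_le_sum (f := fun v : ℕ × ℕ => ∑ w ∈ V, v.1 * w.2)
      (fun _ _ => Nat.zero_le _) hv
    have h2 := Finset.single_le_sum (f := fun w : ℕ × ℕ => v.1 * w.2)
      (fun _ _ => Nat.zero_le _) hw
    omega
  -- the private primes
  obtain ⟨r, hr⟩ : ∃ r : (Σ v : {v // v ∈ V}, Fin (ex v.1).length) → ℕ,
      ∀ y, r y = Nat.nth Nat.Prime (B + (Fintype.equivFin _ y : ℕ)) := ⟨_, fun _ => rfl⟩
  obtain ⟨e, he⟩ : ∃ e : (Σ v : {v // v ∈ V}, Fin (ex v.1).length) → ℕ,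
      ∀ y, e y = (ex y.1.1).get y.2 := ⟨_, fun _ => rfl⟩
  have he1 : ∀ y, 1 ≤ e y := fun y => by
    rw [he]; exact hex y.1.1 y.1.2 _ (List.get_mem _ _)
  have hrp : ∀ y, (r y).Prime := fun y => by rw [hr]; exact Nat.prime_nth_prime _
  have hrinj : Function.Injective r := by
    intro y y' h
    rw [hr, hr] at h
    have h1 := (Nat.nth_injective Nat.infinite_setOfPred_prime) h
    have h2 : (Fintype.equivFin _ y : ℕ) = Fintype.equivFin _ y' := by omega
    exact (Fintype.equivFin _).injective (Fin.ext h2)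
  have hrB : ∀ y, B < r y := by
    intro y
    have h1 : B + (Fintype.equivFin _ y : ℕ) + 2 ≤ r y := by
      rw [hr]; exact Nat.add_two_le_nth_prime _
    omega
  have hnd : ∀ y (x : ℕ), 0 < x → x ≤ B → ¬ r y ∣ x := by
    intro y x hx hxB hd
    have h1 := Nat.le_of_dvd hx hd
    have h2 := hrB y
    omega
  have hrQ : ∀ y, ¬ r y ∣ Q := fun y => hnd y Q hQ hB1
  have hsol : ∀ y : (Σ v : {v // v ∈ V}, Fin (ex v.1).length),
      ∃ x, y.1.1.1 * x + y.1.1.2 ≡ r y ^ e y [MOD r y ^ (e y + 1)] := by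
    intro y
    apply solve_lin (pow_pos (hrp y).pos _)
    apply Nat.Coprime.pow_right
    exact ((Nat.Prime.coprime_iff_not_dvd (hrp y)).2
      (hnd y _ (hV y.1.1 y.1.2).1 (hB2 _ y.1.2))).symm
  choose xv hxv using hsol
  obtain ⟨X', hX'⟩ := exists_crt_add (ι := Option (Σ v : {v // v ∈ V}, Fin (ex v.1).length))
    (fun o => match o with
      | none => Q
      | some y => r y ^ (e y + 1))
    (fun _ => 0)
    (fun o => match o with
      | none => X
      | some y => xv y)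
    (by
      intro o
      match o with
      | none => exact hQ
      | some y => exact pow_pos (hrp y).pos _)
    (by
      intro o o' hne
      match o, o', hne with
      | none, none, h => exact absurd rfl h
      | none, some y, _ =>
        exact Nat.Coprime.pow_right _ ((Nat.Prime.coprime_iff_not_dvd (hrp y)).2 (hrQ y)).symm
      | some y, none, _ =>
        exact Nat.Coprime.pow_left _ ((Nat.Prime.coprime_iff_not_dvd (hrp y)).2 (hrQ y))
      | some y, some y', h =>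
        exact Nat.Coprime.pow _ _ ((Nat.coprime_primes (hrp y) (hrp y')).2
          fun hh => h (by rw [hrinj hh])))
  have hX'1 : X' ≡ X [MOD Q] := by simpa using hX' none
  have hX'2 : ∀ y : (Σ v : {v // v ∈ V}, Fin (ex v.1).length),
      y.1.1.1 * X' + y.1.1.2 ≡ r y ^ e y [MOD r y ^ (e y + 1)] := by
    intro y
    have h1 : X' ≡ xv y [MOD r y ^ (e y + 1)] := by simpa using hX' (some y)
    exact ((h1.mul_left _).add_right _).trans (hxv y)
  obtain ⟨R, hR⟩ : ∃ R : ℕ, R = ∏ y, r y ^ (e y + 1) := ⟨_, rfl⟩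
  have hRpos : 0 < R := by
    rw [hR]; exact Finset.prod_pos fun y _ => pow_pos (hrp y).pos _
  have hrR : ∀ y, r y ^ (e y + 1) ∣ R := fun y => by
    rw [hR]; exact Finset.dvd_prod_of_mem _ (mem_univ y)
  obtain ⟨Q', hQ'⟩ : ∃ Q' : ℕ, Q' = Q * R := ⟨_, rfl⟩
  have hQ'pos : 0 < Q' := by rw [hQ']; positivity
  have hQQ' : Q ∣ Q' := by rw [hQ']; exact dvd_mul_right _ _
  have hRQ' : R ∣ Q' := by rw [hQ']; exact dvd_mul_left _ _
  have hQ'p : ∀ p : ℕ, p.Prime → p ∣ Q' → p ∣ Q ∨ ∃ y, p = r y := by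
    intro p hp hd
    rw [hQ', hp.dvd_mul] at hd
    rcases hd with h | h
    · exact Or.inl h
    · rw [hR] at h
      obtain ⟨y, _, hy⟩ := (hp.prime.dvd_finsetProd_iff _).1 h
      exact Or.inr ⟨y, (Nat.prime_dvd_prime_iff_eq hp (hrp y)).1 (hp.dvd_of_dvd_pow hy)⟩
  obtain ⟨Z, hZ⟩ : ∃ Z : ℕ × ℕ → ℕ, ∀ v, Z v = v.1 * X' + v.2 := ⟨_, fun _ => rfl⟩
  have hZpos : ∀ v ∈ V, 0 < Z v := by
    intro v hv
    rw [hZ]
    have := (hV v hv).2.1
    omega
  -- the valuations of the constant terms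
  have hZQ : ∀ v ∈ V, ∀ p : ℕ, p.Prime → p ∣ Q →
      (Z v).factorization p = (v.1 * X + v.2).factorization p := by
    intro v hv p hp hpQ
    have hne : v.1 * X + v.2 ≠ 0 := by have := (hV v hv).2.1; omega
    have hlt := hlow v hv p hp hpQ
    have h1 : p ^ ((v.1 * X + v.2).factorization p + 1) ∣ Q :=
      (hp.pow_dvd_iff_le_factorization hQ.ne').2 hlt
    have h2 : Z v ≡ v.1 * X + v.2 [MOD p ^ ((v.1 * X + v.2).factorization p + 1)] := by
      rw [hZ]
      exact ((hX'1.of_dvd h1).mul_left _).add_right _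
    apply fac_eq hp
    · exact ((h2.of_dvd (pow_dvd_pow _ (Nat.le_succ _))).dvd_iff dvd_rfl).2
        ((hp.pow_dvd_iff_le_factorization hne).2 le_rfl)
    · intro h3
      have h4 := (h2.dvd_iff dvd_rfl).1 h3
      have := (hp.pow_dvd_iff_le_factorization hne).1 h4
      omega
  have hZr : ∀ y : (Σ v : {v // v ∈ V}, Fin (ex v.1).length),
      (Z y.1.1).factorization (r y) = e y := by
    intro y
    have h2 := hX'2 y
    rw [← hZ] at h2
    apply fac_eq (hrp y)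
    · exact ((h2.of_dvd (pow_dvd_pow _ (Nat.le_succ _))).dvd_iff dvd_rfl).2 dvd_rfl
    · intro h3
      have h4 := (h2.dvd_iff dvd_rfl).1 h3
      have := (Nat.pow_dvd_pow_iff_le_right (hrp y).one_lt).1 h4
      omega
  have hother : ∀ v ∈ V, ∀ y : (Σ v : {v // v ∈ V}, Fin (ex v.1).length), y.1.1 ≠ v →
      ¬ r y ∣ Z v := by
    intro v hv y hne hpv
    have h1 : r y ∣ Z y.1.1 := by
      have h2 := hZr y
      by_contra hd
      rw [Nat.factorization_eq_zero_of_not_dvd hd] at h2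
      have := he1 y
      omega
    have h2 : (r y : ℤ) ∣ ((v.1 * y.1.1.2 : ℕ) : ℤ) - ((y.1.1.1 * v.2 : ℕ) : ℤ) := by
      have ha : (r y : ℤ) ∣ ((Z y.1.1 : ℕ) : ℤ) := by exact_mod_cast h1
      have hb : (r y : ℤ) ∣ ((Z v : ℕ) : ℤ) := by exact_mod_cast hpv
      have := dvd_sub (ha.mul_left (v.1 : ℤ)) (hb.mul_left (y.1.1.1 : ℤ))
      rw [hZ, hZ] at this
      push_cast at this ⊢
      have heq : (v.1 : ℤ) * (y.1.1.1 * X' + y.1.1.2) - y.1.1.1 * (v.1 * X' + v.2) =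
          v.1 * y.1.1.2 - y.1.1.1 * v.2 := by ring
      rwa [heq] at this
    have h3 : ((v.1 * y.1.1.2 : ℕ) : ℤ) - ((y.1.1.1 * v.2 : ℕ) : ℤ) = 0 := by
      apply Int.eq_zero_of_abs_lt_dvd h2
      have h4 := hrB y
      have h5 : ((v.1 * y.1.1.2 : ℕ) : ℤ) ≤ B := by exact_mod_cast hB3 v hv y.1.1 y.1.2
      have h6 : ((y.1.1.1 * v.2 : ℕ) : ℤ) ≤ B := by exact_mod_cast hB3 y.1.1 y.1.2 v hv
      rw [abs_lt]
      constructor <;> omega
    apply hnp v hv y.1.1 y.1.2 (Ne.symm hne)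
    omega
  -- the coefficients
  have hcf : ∀ v ∈ V, ∀ p : ℕ, p.Prime → p ∣ Q →
      (Nat.gcd Q' (Z v)).factorization p = (v.1 * X + v.2).factorization p ∧
      (v.1 * X + v.2).factorization p < Q'.factorization p := by
    intro v hv p hp hpQ
    have h1 : Q.factorization p ≤ Q'.factorization p :=
      (Nat.factorization_le_iff_dvd hQ.ne' hQ'pos.ne').2 hQQ' p
    have h2 := hlow v hv p hp hpQ
    rw [Nat.factorization_gcd hQ'pos.ne' (hZpos v hv).ne', Finsupp.inf_apply, hZQ v hv p hp hpQ]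
    constructor
    · exact min_eq_right (by omega)
    · omega
  have hcr : ∀ v ∈ V, ∀ y : (Σ v : {v // v ∈ V}, Fin (ex v.1).length),
      (Nat.gcd Q' (Z v)).factorization (r y) = (if y.1.1 = v then e y else 0) ∧
      (Nat.gcd Q' (Z v)).factorization (r y) < Q'.factorization (r y) := by
    intro v hv y
    have h1 : e y + 1 ≤ Q'.factorization (r y) :=
      ((hrp y).pow_dvd_iff_le_factorization hQ'pos.ne').1 ((hrR y).trans hRQ')
    rw [Nat.factorization_gcd hQ'pos.ne' (hZpos v hv).ne', Finsupp.inf_apply]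
    by_cases hy : y.1.1 = v
    · rw [if_pos hy, ← hy, hZr y]
      have h2 : min (Q'.factorization (r y)) (e y) = e y := min_eq_right (by omega)
      constructor
      · exact h2
      · show min _ _ < _
        rw [h2]
        omega
    · rw [if_neg hy, Nat.factorization_eq_zero_of_not_dvd (hother v hv y hy)]
      have h2 : min (Q'.factorization (r y)) 0 = 0 := min_eq_right (Nat.zero_le _)
      constructor
      · exact h2
      · show min _ _ < _
        rw [h2]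
        omega
  have hfull : ∀ v ∈ V, ∀ p : ℕ, p.Prime → p ∣ Q' → p ∣ Q' / Nat.gcd Q' (Z v) := by
    intro v hv p hp hpQ'
    have hlt : (Nat.gcd Q' (Z v)).factorization p < Q'.factorization p := by
      rcases hQ'p p hp hpQ' with h | ⟨y, rfl⟩
      · have := hcf v hv p hp h
        omega
      · exact (hcr v hv y).2
    have h0 : (Q' / Nat.gcd Q' (Z v)).factorization p ≠ 0 := by
      rw [Nat.factorization_div (Nat.gcd_dvd_left _ _), Finsupp.tsub_apply]
      omega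
    exact Nat.dvd_of_factorization_pos h0
  refine ⟨Q', X', fun v => Nat.gcd Q' (Z v), fun v => v.1 * (Q' / Nat.gcd Q' (Z v)),
    fun v => Z v / Nat.gcd Q' (Z v), hQ'pos, hQQ', hX'1, ?_⟩
  intro v hv
  have hG : 0 < Nat.gcd Q' (Z v) := Nat.gcd_pos_of_pos_left _ hQ'pos
  refine ⟨hG, ?_, ?_, ?_, dvd_mul_right _ _, ?_, Nat.gcd_dvd_left _ _, ?_⟩
  · intro Δ _ g hg
    have hdisj : Disjoint Q.primeFactors (univ.image r) := by
      rw [disjoint_left]
      intro p hp hpr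
      obtain ⟨y, -, rfl⟩ := mem_image.1 hpr
      exact hrQ y (Nat.dvd_of_mem_primeFactors hp)
    have hsub : (Nat.gcd Q' (Z v)).primeFactors ⊆ Q.primeFactors ∪ univ.image r := by
      intro p hp
      have hpp := Nat.prime_of_mem_primeFactors hp
      have hpd := (Nat.dvd_of_mem_primeFactors hp).trans (Nat.gcd_dvd_left _ _)
      rw [mem_union]
      rcases hQ'p p hpp hpd with h | ⟨y, rfl⟩
      · exact Or.inl (Nat.mem_primeFactors.2 ⟨hpp, h, hQ.ne'⟩)
      · exact Or.inr (mem_image_of_mem r (mem_univ y))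
    show Fm g (Nat.gcd Q' (Z v)) = _
    rw [Fm_prod hg hsub, prod_union hdisj]
    congr 1
    · apply prod_congr rfl
      intro p hp
      rw [(hcf v hv p (Nat.prime_of_mem_primeFactors hp) (Nat.dvd_of_mem_primeFactors hp)).1]
    · rw [prod_image (fun y _ y' _ h => hrinj h)]
      rw [← prod_sigma_list (fun v : {v // v ∈ V} => ex v.1) g ⟨v, hv⟩]
      apply prod_congr rfl
      intro y _
      rw [(hcr v hv y).1]
      by_cases hy : y.1.1 = v
      · rw [if_pos hy, if_pos (Subtype.ext hy), he]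
      · rw [if_neg hy, if_neg (fun h => hy (congrArg Subtype.val h)), hg]
  · exact Nat.mul_pos (hV v hv).1 (Nat.div_pos (Nat.le_of_dvd hQ'pos (Nat.gcd_dvd_left _ _)) hG)
  · show Nat.Coprime _ _
    rw [Nat.coprime_iff_gcd_eq_one]
    by_contra hne
    obtain ⟨p, hp, hpd⟩ := Nat.exists_prime_and_dvd hne
    have h1 : p ∣ v.1 * (Q' / Nat.gcd Q' (Z v)) := hpd.trans (Nat.gcd_dvd_left _ _)
    have h2 : p ∣ Z v / Nat.gcd Q' (Z v) := hpd.trans (Nat.gcd_dvd_right _ _)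
    rcases (hp.dvd_mul).1 h1 with h3 | h3
    · have h4 : p ∣ Z v := h2.trans (Nat.div_dvd_of_dvd (Nat.gcd_dvd_right _ _))
      rw [hZ] at h4
      have h5 : p ∣ v.2 := (Nat.dvd_add_right (h3.mul_right _)).1 h4
      have h6 := Nat.dvd_gcd h3 h5
      rw [(hV v hv).2.2] at h6
      exact hp.one_lt.ne' (Nat.dvd_one.1 h6)
    · have h4 := Nat.coprime_div_gcd_div_gcd (m := Q') (n := Z v) hG
      have h5 := Nat.dvd_gcd h3 h2
      rw [h4] at h5
      exact hp.one_lt.ne' (Nat.dvd_one.1 h5)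
  · intro p hp hpQ
    exact (hfull v hv p hp hpQ).mul_left _
  · intro n
    have h1 : Nat.gcd Q' (Z v) * (Q' / Nat.gcd Q' (Z v)) = Q' :=
      Nat.mul_div_cancel' (Nat.gcd_dvd_left _ _)
    have h2 : Nat.gcd Q' (Z v) * (Z v / Nat.gcd Q' (Z v)) = Z v :=
      Nat.mul_div_cancel' (Nat.gcd_dvd_right _ _)
    show v.1 * (Q' * n + X') + v.2 = Nat.gcd Q' (Z v) *
      (v.1 * (Q' / Nat.gcd Q' (Z v)) * n + Z v / Nat.gcd Q' (Z v))
    calc v.1 * (Q' * n + X') + v.2 = v.1 * Q' * n + Z v := by rw [hZ]; ring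
      _ = v.1 * (Nat.gcd Q' (Z v) * (Q' / Nat.gcd Q' (Z v))) * n +
          Nat.gcd Q' (Z v) * (Z v / Nat.gcd Q' (Z v)) := by rw [h1, h2]
      _ = _ := by ring

end Pool.Agent.Y887.DE
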