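import Mathlib

/-!
Complementary exponents, and counting of the values of finitely many injective maps.
-/

set_option autoImplicit false

namespace Pool.Agent.Y887.DE

open Finset Filter

/-- complementary exponents -/
theorem filler (S : Finset ℕ) (e : ℕ → ℕ) (Bm Z : ℕ) (hcard : S.card ≤ Z)
    (he : ∀ p ∈ S, e p ≤ Bm) :
    ∃ L : List ℕ, (∀ m ∈ L, 1 ≤ m) ∧ ∀ {Δ : Type} [CommMonoid Δ] (g : ℕ → Δ), g 0 = 1 →
      (∏ p ∈ S, g (e p)) * (L.map g).prod = ∏ j ∈ Icc 1 Bm, g j ^ Z := by
  classical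
  refine ⟨(Icc 1 Bm).toList.flatMap
    (fun j => List.replicate (Z - (S.filter (fun p => e p = j)).card) j), ?_, ?_⟩
  · intro m hm
    obtain ⟨j, hj, hmj⟩ := List.mem_flatMap.1 hm
    rw [mem_toList, mem_Icc] at hj
    rw [List.eq_of_mem_replicate hmj]
    exact hj.1
  · intro Δ _ g hg
    have h1 : (((Icc 1 Bm).toList.flatMap
        (fun j => List.replicate (Z - (S.filter (fun p => e p = j)).card) j)).map g).prod =
        ∏ j ∈ Icc 1 Bm, g j ^ (Z - (S.filter (fun p => e p = j)).card) := by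
      rw [List.map_flatMap, List.flatMap_def, List.prod_flatten, List.map_map]
      rw [← Finset.prod_map_toList]
      congr 1
      apply List.map_congr_left
      intro j _
      rw [Function.comp_apply, List.map_replicate, List.prod_replicate]
    have h2 : ∏ p ∈ S, g (e p) = ∏ j ∈ Icc 1 Bm, g j ^ (S.filter (fun p => e p = j)).card := by
      have hm : ∀ p ∈ S, e p ∈ range (Bm + 1) := by
        intro p hp
        rw [mem_range]
        have := he p hp
        omega
      rw [← prod_fiberwise_of_maps_to hm]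
      have h3 : ∀ j ∈ range (Bm + 1), ∏ p ∈ S.filter (fun p => e p = j), g (e p) =
          g j ^ (S.filter (fun p => e p = j)).card := by
        intro j _
        rw [prod_congr rfl (g := fun _ => g j), prod_const]
        intro p hp
        rw [(mem_filter.1 hp).2]
      rw [prod_congr rfl h3]
      symm
      apply prod_subset
      · intro j hj
        rw [mem_Icc] at hj
        rw [mem_range]
        omega
      · intro j hj hj'
        rw [mem_range] at hj
        rw [mem_Icc] at hj'
        have : j = 0 := by omega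
        rw [this, hg, one_pow]
    rw [h1, h2, ← prod_mul_distrib]
    apply prod_congr rfl
    intro j _
    rw [← pow_add]
    congr 1
    have := (card_filter_le S (fun p => e p = j)).trans hcard
    omega

theorem count_map2 {E : Type} [Fintype E] [Nonempty E] (Cb K1 : ℕ) (hCb : 1 ≤ Cb)
    (ν : E → ℕ → ℕ) (hinj : ∀ e, Function.Injective (ν e))
    (hν : ∀ e m, 1 ≤ m → ν e m ≤ Cb * m) (G P : ℕ → ℕ → Prop)
    (hSc : ∀ᶠ X : ℕ in atTop, (X : ℝ) / Real.log X ^ K1 ≤
      ({m : ℕ | 1 ≤ m ∧ m ≤ X ∧ G X m}.ncard : ℝ))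
    (hG : ∀ᶠ X : ℕ in atTop, ∀ m, 1 ≤ m → m ≤ X → G X m →
      ∃ e, ∀ X', X' < 2 * Cb * X → P X' (ν e m)) :
    ∀ᶠ X : ℕ in atTop, (X : ℝ) / Real.log X ^ (K1 + 1) ≤ ({n : ℕ | n ≤ X ∧ P X n}.ncard : ℝ) := by
  classical
  have hdiv : Tendsto (fun X : ℕ => X / Cb) atTop atTop := by
    rw [tendsto_atTop]
    intro c
    filter_upwards [eventually_ge_atTop (c * Cb)] with X hX
    exact (Nat.le_div_iff_mul_le (by omega)).2 hX
  have hlogX : Tendsto (fun X : ℕ => Real.log (X : ℝ)) atTop atTop :=
    Real.tendsto_log_atTop.comp tendsto_natCast_atTop_atTop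
  have hlogX' : Tendsto (fun X : ℕ => Real.log ((X / Cb : ℕ) : ℝ)) atTop atTop := hlogX.comp hdiv
  have hE1 : 1 ≤ Fintype.card E := Fintype.card_pos
  filter_upwards [hdiv.eventually hSc, hdiv.eventually hG, hlogX'.eventually_ge_atTop 1,
    hlogX.eventually_ge_atTop (2 * Cb * (Fintype.card E)), eventually_ge_atTop (2 * Cb)]
    with X h1 hGX h2 h3 h4
  set X' := X / Cb with hX'
  have hCbr : (1 : ℝ) ≤ Cb := by exact_mod_cast hCb
  have hkr : (1 : ℝ) ≤ (Fintype.card E : ℝ) := by exact_mod_cast hE1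
  have hX'1n : 1 ≤ X' := by
    rw [hX', Nat.le_div_iff_mul_le (by omega)]
    omega
  have hXX' : X < 2 * Cb * X' := by
    have h5 : X < Cb * (X' + 1) := Nat.lt_mul_div_succ X (by omega)
    have h6 : Cb * (X' + 1) ≤ 2 * Cb * X' := by nlinarith
    omega
  have hex : ∀ m : ℕ, ∃ e : E, 1 ≤ m → m ≤ X' → G X' m → P X (ν e m) := by
    intro m
    by_cases h : 1 ≤ m ∧ m ≤ X' ∧ G X' m
    · obtain ⟨e, he⟩ := hGX m h.1 h.2.1 h.2.2
      exact ⟨e, fun _ _ _ => he X hXX'⟩
    · exact ⟨Classical.arbitrary E, fun h1 h2 h3 => absurd ⟨h1, h2, h3⟩ h⟩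
  choose q hq using hex
  set S : Finset ℕ := (Icc 1 X').filter (fun m => G X' m) with hS
  have hSset : {m : ℕ | 1 ≤ m ∧ m ≤ X' ∧ G X' m} = (S : Set ℕ) := by
    ext m
    rw [hS, mem_coe, mem_filter, mem_Icc, Set.mem_ofPred_eq, and_assoc]
  rw [hSset, Set.ncard_coe_finset] at h1
  have hcard : S.card ≤ Fintype.card E * (S.image (fun m => ν (q m) m)).card := by
    apply card_le_mul_card_image
    intro v _
    calc (S.filter (fun m => ν (q m) m = v)).card ≤ (univ : Finset E).card := by
          apply card_le_card_of_injOn q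
          · intro m _
            exact mem_coe.2 (mem_univ _)
          · intro m hm m' hm' hqq
            rw [mem_coe, mem_filter] at hm hm'
            have e1 : ν (q m) m = ν (q m') m' := by rw [hm.2, hm'.2]
            rw [hqq] at e1
            exact hinj _ e1
      _ = Fintype.card E := card_univ
  set W : Set ℕ := {n : ℕ | n ≤ X ∧ P X n} with hW
  have hWfin : W.Finite := (Set.finite_Iic X).subset fun n hn => hn.1
  have hsub : ((S.image (fun m => ν (q m) m) : Finset ℕ) : Set ℕ) ⊆ W := by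
    intro n hn
    rw [mem_coe, mem_image] at hn
    obtain ⟨m, hm, rfl⟩ := hn
    rw [hS, mem_filter, mem_Icc] at hm
    have e3 : ν (q m) m ≤ X := by
      refine (hν (q m) m hm.1.1).trans ?_
      calc Cb * m ≤ Cb * X' := Nat.mul_le_mul_left _ hm.1.2
        _ ≤ X := Nat.mul_div_le X Cb
    exact ⟨e3, hq m hm.1.1 hm.1.2 hm.2⟩
  have hWc : (S.image (fun m => ν (q m) m)).card ≤ W.ncard := by
    rw [← Set.ncard_coe_finset]
    exact Set.ncard_le_ncard hsub hWfin
  have hfin : (S.card : ℝ) ≤ (Fintype.card E) * (W.ncard : ℝ) := by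
    have : S.card ≤ Fintype.card E * W.ncard := hcard.trans (Nat.mul_le_mul_left _ hWc)
    exact_mod_cast this
  have hXr : (X : ℝ) / (2 * Cb) ≤ X' := by
    rw [div_le_iff₀ (by linarith)]
    have h6 : (X : ℝ) < 2 * Cb * X' := by exact_mod_cast hXX'
    linarith
  have hX'1 : (1 : ℝ) ≤ X' := by exact_mod_cast hX'1n
  have hX'X : (X' : ℝ) ≤ X := by exact_mod_cast Nat.div_le_self X Cb
  have hlog : Real.log X' ≤ Real.log X := Real.log_le_log (by linarith) hX'X
  have hl1 : 1 ≤ Real.log X := h2.trans hlog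
  have hX0 : (0 : ℝ) ≤ X := Nat.cast_nonneg _
  have hstep : (X : ℝ) / Real.log X ^ (K1 + 1) * (Fintype.card E) ≤ X' / Real.log X' ^ K1 := by
    calc (X : ℝ) / Real.log X ^ (K1 + 1) * (Fintype.card E) =
          X * (Fintype.card E) / (Real.log X * Real.log X ^ K1) := by
          rw [pow_succ]; ring
      _ ≤ X * (Fintype.card E) / ((2 * Cb * (Fintype.card E)) * Real.log X' ^ K1) := by
          apply div_le_div_of_nonneg_left (by positivity) (by positivity)
          apply mul_le_mul h3 (pow_le_pow_left₀ (by linarith) hlog _) (by positivity) (by linarith)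
      _ = X / (2 * Cb) / Real.log X' ^ K1 := by
          field_simp
      _ ≤ X' / Real.log X' ^ K1 := by
          apply div_le_div_of_nonneg_right hXr (by positivity)
  have h8 : (X : ℝ) / Real.log X ^ (K1 + 1) * (Fintype.card E) ≤ (W.ncard : ℝ) * (Fintype.card E) := by
    calc _ ≤ _ := hstep
      _ ≤ (S.card : ℝ) := h1
      _ ≤ (Fintype.card E) * (W.ncard : ℝ) := hfin
      _ = _ := by ring
  exact le_of_mul_le_mul_right h8 (by positivity)

end Pool.Agent.Y887.DE
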