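import Mathlib
import Pool.Agent.Y887.DK.Gad

/-!
The effect of the primes of a squarefree factor on a prime independent multiplicative function.
-/

set_option autoImplicit false

namespace Pool.Agent.Y887.DE

open Finset Pool.Agent.Y887.DK

/-- effect of one prime -/
def kap {Γ : Type} [CommGroup Γ] (f : ℕ → Γ) (m : ℕ) : Γ := f 1 * f m / f (m + 1)

theorem kap_zero {Γ : Type} [CommGroup Γ] (f : ℕ → Γ) (h0 : f 0 = 1) : kap f 0 = 1 := by
  simp [kap, h0]

/-- the value at `h v` for squarefree `h` -/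
theorem Fm_kap {Γ : Type} [CommGroup Γ] (f : ℕ → Γ) (h0 : f 0 = 1) {h v : ℕ} (hh : Squarefree h)
    (hv : v ≠ 0) :
    Fm f (h * v) * ∏ p ∈ h.primeFactors, kap f (v.factorization p) = Fm f h * Fm f v := by
  have hh0 : h ≠ 0 := hh.ne_zero
  have hS : (h * v).primeFactors = h.primeFactors ∪ v.primeFactors := Nat.primeFactors_mul hh0 hv
  have h1 : Fm f (h * v) = (∏ p ∈ h.primeFactors, f (v.factorization p + 1)) *
      ∏ p ∈ v.primeFactors \ h.primeFactors, f (v.factorization p) := by
    rw [Fm_prod h0 (S := h.primeFactors ∪ v.primeFactors) (by rw [hS]),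
      ← union_sdiff_self_eq_union, prod_union disjoint_sdiff]
    congr 1
    · apply prod_congr rfl
      intro p hp
      rw [Nat.factorization_mul hh0 hv, Finsupp.add_apply]
      have h2 := hh.natFactorization_le_one p
      have h3 : 0 < h.factorization p := by
        rw [Nat.pos_iff_ne_zero, ← Finsupp.mem_support_iff, Nat.support_factorization]
        exact hp
      have : h.factorization p = 1 := by omega
      rw [this, add_comm]
    · apply prod_congr rfl
      intro p hp
      rw [mem_sdiff] at hp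
      rw [Nat.factorization_mul hh0 hv, Finsupp.add_apply]
      have : h.factorization p = 0 := by
        rw [← Finsupp.notMem_support_iff, Nat.support_factorization]
        exact hp.2
      rw [this, zero_add]
  have h2 : Fm f v = (∏ p ∈ h.primeFactors, f (v.factorization p)) *
      ∏ p ∈ v.primeFactors \ h.primeFactors, f (v.factorization p) := by
    rw [Fm_prod h0 (S := h.primeFactors ∪ v.primeFactors) subset_union_right,
      ← union_sdiff_self_eq_union, prod_union disjoint_sdiff]
  have h3 : Fm f h = ∏ p ∈ h.primeFactors, f 1 := by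
    rw [Fm_sqfree f hh, prod_const]
  rw [h1, h2, h3, mul_right_comm, ← prod_mul_distrib, ← mul_assoc, ← prod_mul_distrib]
  congr 1
  apply prod_congr rfl
  intro p _
  rw [kap, mul_div_cancel]

theorem kap_unit {Γ : Type} [CommGroup Γ] (f : ℕ → Γ) (k : ℕ) (hk : 1 ≤ k) :
    ∃ l : List ℕ, (∀ m ∈ l, 1 ≤ m ∧ m < k) ∧ (l.map (kap f)).prod = f 1 ^ k / f k := by
  induction k, hk using Nat.le_induction with
  | base => exact ⟨[], by simp, by simp⟩
  | succ k hk ih =>
    obtain ⟨l, hl, hG⟩ := ih
    refine ⟨k :: l, ?_, ?_⟩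
    · intro p hp
      rcases List.mem_cons.1 hp with rfl | h
      · exact ⟨hk, by omega⟩
      · have := hl p h
        exact ⟨this.1, by omega⟩
    · rw [List.map_cons, List.prod_cons, hG, kap, pow_succ, div_mul_div_comm,
        div_eq_div_iff_mul_eq_mul]
      ac_rfl

theorem kap_mset {Γ : Type} [CommGroup Γ] (f : ℕ → Γ) (u : Multiset ℕ)
    (hu : ∀ k ∈ u, 1 ≤ k) :
    ∃ l : List ℕ, (∀ m ∈ l, 1 ≤ m) ∧ (l.map (kap f)).prod = f 1 ^ u.sum / (u.map f).prod := by
  induction u using Multiset.induction_on with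
  | empty => exact ⟨[], by simp, by simp⟩
  | cons k u ih =>
    obtain ⟨l, hl, hG⟩ := ih (fun k hk => hu k (Multiset.mem_cons_of_mem hk))
    obtain ⟨l', hl', hG'⟩ := kap_unit f k (hu k (Multiset.mem_cons_self _ _))
    refine ⟨l' ++ l, ?_, ?_⟩
    · intro m hm
      rcases List.mem_append.1 hm with h | h
      · exact (hl' m h).1
      · exact hl m h
    · rw [List.map_append, List.prod_append, hG, hG', Multiset.sum_cons, Multiset.map_cons,
        Multiset.prod_cons, pow_add, div_mul_div_comm]

/-- two lists of effects whose quotient is `f 1` -/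
theorem kap_gadget {Γ : Type} [CommGroup Γ] (f : ℕ → Γ) (u v : Multiset ℕ)
    (hu : ∀ k ∈ u, 1 ≤ k) (hv : ∀ k ∈ v, 1 ≤ k) (hs : u.sum = v.sum + 1)
    (hp : (u.map f).prod = (v.map f).prod) :
    ∃ Lp Lm : List ℕ, (∀ m ∈ Lp, 1 ≤ m) ∧ (∀ m ∈ Lm, 1 ≤ m) ∧
      (Lp.map (kap f)).prod = f 1 * (Lm.map (kap f)).prod := by
  obtain ⟨l, hl, hG⟩ := kap_mset f u hu
  obtain ⟨l', hl', hG'⟩ := kap_mset f v hv
  refine ⟨l, l', hl, hl', ?_⟩
  rw [hG, hG', hs, hp, pow_succ]
  rw [mul_comm, mul_div_assoc]

/-- the list with `c` copies of the first and `C - c` copies of the second list -/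
def mix (Lp Lm : List ℕ) (C c : ℕ) : List ℕ :=
  (List.replicate c Lp).flatten ++ (List.replicate (C - c) Lm).flatten

theorem mix_prod {Γ : Type} [CommGroup Γ] (f : ℕ → Γ) (Lp Lm : List ℕ)
    (hrel : (Lp.map (kap f)).prod = f 1 * (Lm.map (kap f)).prod) {C c : ℕ} (hc : c ≤ C) :
    ((mix Lp Lm C c).map (kap f)).prod = f 1 ^ c * ((Lm.map (kap f)).prod) ^ C := by
  have h1 : ∀ (L : List ℕ) (n : ℕ), (((List.replicate n L).flatten).map (kap f)).prod =
      ((L.map (kap f)).prod) ^ n := by
    intro L n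
    rw [List.map_flatten, List.map_replicate, List.prod_flatten, List.map_replicate,
      List.prod_replicate]
  unfold mix
  rw [List.map_append, List.prod_append, h1, h1, hrel, mul_pow, mul_assoc, ← pow_add,
    Nat.add_sub_cancel' hc]

theorem mix_mem {Lp Lm : List ℕ} {C c m : ℕ} (hm : m ∈ mix Lp Lm C c) : m ∈ Lp ∨ m ∈ Lm := by
  unfold mix at hm
  rcases List.mem_append.1 hm with h | h
  · obtain ⟨L, hL, hmL⟩ := List.mem_flatten.1 h
    rw [List.eq_of_mem_replicate hL] at hmL
    exact Or.inl hmL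
  · obtain ⟨L, hL, hmL⟩ := List.mem_flatten.1 h
    rw [List.eq_of_mem_replicate hL] at hmL
    exact Or.inr hmL

theorem mix_length (Lp Lm : List ℕ) {C c : ℕ} (hc : c ≤ C) :
    (mix Lp Lm C c).length ≤ C * (Lp.length + Lm.length) := by
  unfold mix
  rw [List.length_append, List.length_flatten, List.length_flatten, List.map_replicate,
    List.map_replicate, List.sum_replicate, List.sum_replicate, smul_eq_mul, smul_eq_mul]
  have h1 : c * Lp.length ≤ C * Lp.length := Nat.mul_le_mul_right _ hc
  have h2 : (C - c) * Lm.length ≤ C * Lm.length := Nat.mul_le_mul_right _ (Nat.sub_le _ _)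
  rw [mul_add]
  omega

end Pool.Agent.Y887.DE
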