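import Pool.Agent.H495R2.Dk.Main
import Pool.Agent.H446R2.ED_T1
import Pool.Agent.H410R2.EDFinal
import Pool.Agent.Y887.DE.SieveD
import Pool.Agent.Y887.DE.Kap
import Pool.Agent.Y887.DE.Rs
import Pool.Agent.Y887.DE.Eq
import Pool.Agent.Y887.DE.Fil

/-!
All members of an admissible system of linear forms have prescribed values of a prime independent
multiplicative function.
-/

set_option autoImplicit false

namespace Pool.Agent.Y887.DE

open Finset Filter Pool.Agent.Y887.DK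
open Pool.Agent.H410R2.ED (om Ln Pt pt Comb params)
open Pool.Agent.H658R2.ED (E exists_crt_add)
open Pool.Agent.H495R2.Dk (NF normalForm nonprop_of_admissible hdesign sieveR Sh Po key_indep
  om_prod_le sep not_dvd_one_mod)

/-- the properties of the values -/
def GoodV {k : ℕ} {Γ : Type} [CommGroup Γ] (f : ℕ → Γ) (u v : Fin (k + 1) → ℤ)
    (γ : Fin (k + 1) → Γ) (Φ : Γ) (M K C X n : ℕ) : Prop :=
  1 ≤ n ∧ ∀ i, ∃ c s : ℕ, u i * n + v i = ((c * s : ℕ) : ℤ) ∧ c ≤ C ∧ Squarefree s ∧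
    (∀ p : ℕ, p.Prime → p ∣ s → X < p ^ K) ∧ (∀ p : ℕ, p.Prime → p ∣ c * s → M < p) ∧
    Fm f (c * s) = Φ * γ i

theorem natlog_le {κ : ℕ} (hκ : 2 ≤ κ) : ((Nat.log 2 κ + 1 : ℕ) : ℝ) ≤ 3 * Real.log κ := by
  have h1 : 2 ^ Nat.log 2 κ ≤ κ := Nat.pow_log_le_self 2 (by omega)
  have h2 : ((2 : ℝ)) ^ Nat.log 2 κ ≤ κ := by exact_mod_cast h1
  have h3 : Real.log ((2 : ℝ) ^ Nat.log 2 κ) ≤ Real.log κ := Real.log_le_log (by positivity) h2
  rw [Real.log_pow] at h3
  have h4 : Real.log 2 ≤ Real.log κ := Real.log_le_log (by norm_num) (by exact_mod_cast hκ)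
  have h5 := Real.log_two_gt_d9
  have h6 : (0 : ℝ) ≤ (Nat.log 2 κ : ℝ) := Nat.cast_nonneg _
  push_cast
  nlinarith

set_option maxHeartbeats 8000000 in
theorem main (k : ℕ) (hk : 1 ≤ k) {Γ : Type} [CommGroup Γ] (f : ℕ → Γ) (hf0 : f 0 = 1)
    (Lp Lm : List ℕ) (hrel : (Lp.map (kap f)).prod = f 1 * (Lm.map (kap f)).prod) :
    ∃ (Φ : Γ) (K : ℕ), ∀ u v : Fin (k + 1) → ℤ, (∀ i, 0 < u i) →
      (∀ i j, i ≠ j → ¬ (u i = u j ∧ v i = v j)) →
      (∀ p : ℕ, p.Prime → ∃ n : ℕ, ∀ i, ¬ (p : ℤ) ∣ u i * n + v i) →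
      ∀ ex : Fin (k + 1) → List ℕ, (∀ i, ∀ m ∈ ex i, 1 ≤ m) → ∀ M : ℕ, ∃ C : ℕ,
        ∀ᶠ X : ℕ in atTop, (X : ℝ) / Real.log X ^ K ≤
          ({n : ℕ | n ≤ X ∧ GoodV f u v (fun i => ((ex i).map f).prod) Φ M K C X n}.ncard : ℝ) := by
  classical
  obtain ⟨C1, hC10, hdes⟩ := hdesign sieveR
  obtain ⟨C2, hC20, hS2⟩ := sieve_main3
  have hC2r : (0 : ℝ) < 3 * C2 := by
    have : (1 : ℝ) ≤ C2 := by exact_mod_cast hC20
    linarith
  obtain ⟨b, T, hb2, hbT, hCT⟩ := params (3 * C2) hC2r k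
  obtain ⟨ρ, hρ, hcomb⟩ := Pool.Agent.H446R2.comb k b T hbT
  obtain ⟨Cc, hCc⟩ : ∃ Cc : ℕ, C1 * (b ^ (k + 1) : ℕ) * Real.log (b ^ (k + 1) : ℕ) ≤ Cc :=
    ⟨_, Nat.le_ceil _⟩
  obtain ⟨Cm, hCm⟩ : ∃ Cm : ℕ, Cm = T + 1 + Cc := ⟨_, rfl⟩
  obtain ⟨Nn, hNn⟩ : ∃ Nn : ℕ, Nn = (k + 1) * (Cm * (Lp.length + Lm.length)) := ⟨_, rfl⟩
  obtain ⟨mm, hmm⟩ : ∃ mm : ℕ, mm = Lp.sum + Lm.sum := ⟨_, rfl⟩
  have hbpow : 2 ≤ b ^ (k + 1) := by
    calc 2 ≤ b := hb2
      _ = b ^ 1 := (pow_one b).symm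
      _ ≤ b ^ (k + 1) := Nat.pow_le_pow_right (by omega) (by omega)
  have hbk1 : 1 ≤ b ^ k := Nat.one_le_pow _ _ (by omega)
  have hκ2 : 2 ≤ (k + 1) * b ^ k := by nlinarith
  obtain ⟨K0, hS2⟩ := hS2 ((k + 1) * b ^ k) (by omega)
  have hcardP : Fintype.card (Pt k b) = (k + 1) * b ^ k := by simp [Pt]
  have hcardL : Fintype.card (Ln k b) = b ^ (k + 1) := by simp [Ln]
  have hsumbd : 2 * ((k + 1) * b ^ k * (C2 * (Nat.log 2 ((k + 1) * b ^ k) + 1))) ≤ T * b ^ k := by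
    have h1 := natlog_le hκ2
    have h2 : (2 : ℝ) * ((((k + 1) * b ^ k : ℕ) : ℝ) * (C2 *
        ((Nat.log 2 ((k + 1) * b ^ k) + 1 : ℕ) : ℝ))) ≤
        2 * (3 * C2 * (((k + 1) * b ^ k : ℕ) : ℝ) * Real.log (((k + 1) * b ^ k : ℕ) : ℝ)) := by
      have h3 : (0 : ℝ) ≤ (((k + 1) * b ^ k : ℕ) : ℝ) * C2 := by positivity
      nlinarith
    have h4 := h2.trans hCT
    exact_mod_cast h4
  obtain ⟨Z, hZd⟩ : ∃ Z : ℕ, Z = b ^ (k + 1) * (Nn + Cc) := ⟨_, rfl⟩
  obtain ⟨Φ0, hΦ0⟩ : ∃ Φ0 : Γ, Φ0 = ∏ j ∈ Icc 1 (mm + 1), f j ^ Z := ⟨_, rfl⟩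
  obtain ⟨Km, hKm⟩ : ∃ Km : Γ, Km = (Lm.map (kap f)).prod := ⟨_, rfl⟩
  refine ⟨Φ0 * f 1 ^ (T + 1) * Km ^ Cm / f 1 ^ Nn, K0 + 1, ?_⟩
  intro u v hu huv hadm ex hex M
  obtain ⟨D, m0, α, β, hN, hform⟩ := normalForm (k + 1)
    (2 * b ^ (k + 1) + 2 * ((k + 1) * b ^ k) + (k + 1) + M) u v hu
    (nonprop_of_admissible u v hu huv hadm) hadm
  obtain ⟨A, hA⟩ : ∃ A, A = ∏ i, α i := ⟨_, rfl⟩
  have hA0 : 0 < A := by rw [hA]; exact Finset.prod_pos fun i _ => hN.apos i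
  obtain ⟨M0, hM0⟩ : ∃ M0, M0 = D * A := ⟨_, rfl⟩
  have hM0pos : 0 < M0 := by rw [hM0]; exact Nat.mul_pos hN.Dpos hA0
  have hDM0 : D ∣ M0 := by rw [hM0]; exact dvd_mul_right _ _
  obtain ⟨G, hG⟩ : ∃ G, G = D * (∑ l : Fin (k + 1), ∑ P : Pt k b, α l * Po α β P) + 1 :=
    ⟨_, rfl⟩
  have hGle : ∀ l (P : Pt k b), D * (α l * Po α β P) < G := by
    intro l P
    have h1 := Finset.single_le_sum (f := fun l : Fin (k + 1) => ∑ P : Pt k b, α l * Po α β P)
      (fun _ _ => Nat.zero_le _) (mem_univ l)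
    have h2 := Finset.single_le_sum (f := fun P : Pt k b => α l * Po α β P)
      (fun _ _ => Nat.zero_le _) (mem_univ P)
    have h3 := Nat.mul_le_mul_left D (h2.trans h1)
    rw [hG]
    exact Nat.lt_succ_of_le h3
  obtain ⟨d0, hd0G, hd01, hd0⟩ := hdes k b Nn G M0 hM0pos hbpow (by
    intro p hp hpb
    exact (hN.small p hp (by omega)).trans hDM0)
  obtain ⟨h, hh⟩ : ∃ h : Ln k b → ℕ, ∀ e, h e = d0 + M0 * E e := ⟨_, fun _ => rfl⟩
  have hhsq : ∀ e, Squarefree (h e) := fun e => by rw [hh]; exact (hd0 e).1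
  have hhN : ∀ e, Nn ≤ om (h e) := fun e => by rw [hh]; exact (hd0 e).2.1
  have hhC : ∀ e, om (h e) ≤ Nn + Cc := fun e => by
    have h1 := (hd0 e).2.2
    rw [← hh] at h1
    have h2 : ((om (h e) : ℕ) : ℝ) ≤ ((Nn + Cc : ℕ) : ℝ) := by
      push_cast at hCc h1 ⊢
      linarith
    exact_mod_cast h2
  have hhpos : ∀ e, 0 < h e := fun e => Nat.pos_of_ne_zero (hhsq e).ne_zero
  have hh1 : ∀ e, h e ≡ 1 [MOD M0] := by
    intro e
    rw [hh]
    have : M0 * E e ≡ 0 [MOD M0] := (Nat.modEq_zero_iff_dvd).2 (dvd_mul_right _ _)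
    simpa using hd01.add this
  have hhpD : ∀ e p, p.Prime → p ∣ h e → ¬ p ∣ M0 := by
    intro e p hp hpe hpM
    exact not_dvd_one_mod hp hpM (hh1 e) hpe
  have hhpD' : ∀ e p, p.Prime → p ∣ h e → ¬ p ∣ D := fun e p hp hpe hpD =>
    hhpD e p hp hpe (hpD.trans hDM0)
  have hhbig : ∀ e p, p.Prime → p ∣ h e →
      2 * b ^ (k + 1) + 2 * ((k + 1) * b ^ k) + (k + 1) + M < p := by
    intro e p hp hpe
    by_contra hle
    exact hhpD' e p hp hpe (hN.small p hp (by omega))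
  have hhcD : ∀ e, Nat.Coprime (h e) D := by
    intro e
    rw [Nat.coprime_iff_gcd_eq_one]
    by_contra hne
    obtain ⟨p, hp, hpd⟩ := Nat.exists_prime_and_dvd hne
    exact hhpD' e p hp (hpd.trans (Nat.gcd_dvd_left _ _)) (hpd.trans (Nat.gcd_dvd_right _ _))
  have hhcop : ∀ e e', e ≠ e' → Nat.Coprime (h e) (h e') := by
    intro e e' hne'
    rw [Nat.coprime_iff_gcd_eq_one]
    by_contra hne
    obtain ⟨p, hp, hpd⟩ := Nat.exists_prime_and_dvd hne
    have h1 := hpd.trans (Nat.gcd_dvd_left _ _)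
    have h2 := hpd.trans (Nat.gcd_dvd_right _ _)
    have h3 := hhpD e p hp h1
    have h4 := hhbig e p hp h1
    rw [hh] at h1 h2
    apply hne'
    exact sep hp h3 (by omega) h1 h2
  obtain ⟨σ, hσ⟩ : ∃ σ : Ln k b → ℕ, ∀ e, σ e = D * Sh α β e := ⟨_, fun _ => rfl⟩
  obtain ⟨s, hs⟩ : ∃ s : Pt k b → ℕ, ∀ P, s P = β P.1 * d0 + D * Po α β P := ⟨_, fun _ => rfl⟩
  have hline : ∀ e l, α l * σ e + β l * h e = s (pt l e) := by
    intro e l
    rw [hσ, hh, hs, ← key_indep, hM0, ← hA]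
    show _ = β l * d0 + _
    ring
  have hαp : ∀ e l p, p.Prime → p ∣ h e → ¬ p ∣ α l := fun e l p hp hpe hd =>
    hhpD' e p hp hpe (hN.rad l p hp hd)
  -- residues
  obtain ⟨cnt, hcnt⟩ : ∃ cnt : Ln k b → Fin (k + 1) → ℕ,
      ∀ e l, cnt e l = ρ e l + (om (h e) - Nn) := ⟨_, fun _ _ => rfl⟩
  have hcntle : ∀ e l, cnt e l ≤ Cm := by
    intro e l
    rw [hcnt, hCm]
    have := (hρ e l).2
    have := hhC e
    omega
  have hres : ∀ e, ∃ y0 : ℕ, ∀ y, y ≡ y0 [MOD h e ^ (mm + 2)] →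
      (∀ {Δ : Type} [CommMonoid Δ] (g : ℕ → Δ), g 0 = 1 → ∀ l,
        ∏ p ∈ (h e).primeFactors, g ((α l * y + β l).factorization p) =
          ((mix Lp Lm Cm (cnt e l)).map g).prod) ∧
      ∀ P : Pt k b, ∀ p : ℕ, p.Prime → p ∣ h e → ¬ (p : ℤ) ^ (mm + 2) ∣
        ((α P.1 * h e : ℕ) : ℤ) * y + ((s P : ℤ) - α P.1 * σ e) := by
    intro e
    apply residue2 hN (hhsq e) (hhcD e)
      (fun P : Pt k b => ((α P.1 * h e : ℕ) : ℤ)) (fun P : Pt k b => ((s P : ℤ) - α P.1 * σ e))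
    · intro P p hp hpe hd
      have h1 : p ^ 2 ∣ α P.1 * h e := by exact_mod_cast hd
      have hc : Nat.Coprime (p ^ 2) (α P.1) :=
        Nat.Coprime.pow_left _ ((Nat.Prime.coprime_iff_not_dvd hp).2 (hαp e P.1 p hp hpe))
      have h2 : p ^ 2 ∣ h e := hc.dvd_of_dvd_mul_left h1
      have h3 := (hhsq e) p (by rwa [← sq])
      exact hp.one_lt.ne' (Nat.isUnit_iff.1 h3)
    · intro p hp hpe
      have := hhbig e p hp hpe
      rw [hcardP]
      omega
    · intro l m hm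
      rw [hmm]
      rcases mix_mem hm with h1 | h1
      · have := List.le_sum_of_mem h1
        omega
      · have := List.le_sum_of_mem h1
        omega
    · refine le_trans ?_ (hhN e)
      refine (Finset.sum_le_card_nsmul _ _ _ fun l _ => mix_length Lp Lm (hcntle e l)).trans ?_
      rw [card_univ, Fintype.card_fin, smul_eq_mul, ← hNn]
  choose y0 hy0 using hres
  obtain ⟨X, hX⟩ := exists_crt_add (fun e : Ln k b => h e ^ (mm + 3)) σ (fun e => h e * y0 e)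
    (fun e => Nat.pow_pos (hhpos e)) (fun e e' hne => Nat.Coprime.pow _ _ (hhcop e e' hne))
  obtain ⟨Q, hQ⟩ : ∃ Q, Q = ∏ e, h e ^ (mm + 3) := ⟨_, rfl⟩
  have hQpos : 0 < Q := by rw [hQ]; exact Finset.prod_pos fun e _ => Nat.pow_pos (hhpos e)
  have hhQ : ∀ e, h e ^ (mm + 3) ∣ Q := fun e => by
    rw [hQ]; exact Finset.dvd_prod_of_mem _ (mem_univ e)
  have hpQ : ∀ p : ℕ, p.Prime → p ∣ Q → ∃ e, p ∣ h e := by
    intro p hp hd
    rw [hQ] at hd
    obtain ⟨e, _, he⟩ := (hp.prime.dvd_finsetProd_iff _).1 hd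
    exact ⟨e, hp.dvd_of_dvd_pow he⟩
  have homQ : Q.primeFactors.card ≤ Z := by
    have hsub : Q.primeFactors ⊆ univ.biUnion (fun e => (h e).primeFactors) := by
      intro p hp
      obtain ⟨e, he⟩ := hpQ p (Nat.prime_of_mem_primeFactors hp) (Nat.dvd_of_mem_primeFactors hp)
      rw [mem_biUnion]
      exact ⟨e, mem_univ _, Nat.mem_primeFactors.2
        ⟨Nat.prime_of_mem_primeFactors hp, he, (hhpos e).ne'⟩⟩
    refine (card_le_card hsub).trans (card_biUnion_le.trans ?_)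
    refine (Finset.sum_le_card_nsmul _ _ _ fun e _ => hhC e).trans ?_
    rw [card_univ, hcardL, smul_eq_mul, hZd]
  -- quotients on the lines
  have hlineY : ∀ (Y : ℕ) e, Y ≡ X [MOD h e ^ (mm + 3)] → ∃ y, Y + σ e = h e * y ∧
      y ≡ y0 e [MOD h e ^ (mm + 2)] := by
    intro Y e hY
    have h2 := (hY.add_right (σ e)).trans (hX e)
    have h3 : h e ^ (mm + 3) = h e * h e ^ (mm + 2) := by ring
    rw [h3] at h2
    have h4 : Y + σ e ≡ h e * y0 e [MOD h e] := h2.of_dvd (dvd_mul_right _ _)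
    obtain ⟨y, hy⟩ := (Nat.modEq_zero_iff_dvd).1
      (h4.trans ((Nat.modEq_zero_iff_dvd).2 (dvd_mul_right _ _)))
    refine ⟨y, hy, ?_⟩
    rw [hy] at h2
    exact Nat.ModEq.mul_left_cancel' (hhpos e).ne' h2
  -- the forms
  obtain ⟨F, hF⟩ : ∃ F : Pt k b → ℕ × ℕ, ∀ P, F P = (α P.1, s P) := ⟨_, fun _ => rfl⟩
  have hexp : ∀ P : Pt k b, ∀ p : ℕ, p.Prime → p ∣ Q →
      (α P.1 * X + s P).factorization p ≤ mm + 1 ∧ mm + 3 ≤ Q.factorization p := by
    intro P p hp hd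
    obtain ⟨e, he⟩ := hpQ p hp hd
    obtain ⟨y, hy, hyy⟩ := hlineY X e (Nat.ModEq.refl _)
    have h1 := (hy0 e y hyy).2 P p hp he
    have h2 : ((α P.1 * h e : ℕ) : ℤ) * y + ((s P : ℤ) - α P.1 * σ e) =
        ((α P.1 * X + s P : ℕ) : ℤ) := by
      have h3 : ((h e * y : ℕ) : ℤ) = ((X + σ e : ℕ) : ℤ) := by rw [hy]
      push_cast at h3 ⊢
      linear_combination (α P.1 : ℤ) * h3
    rw [h2] at h1
    constructor
    · by_contra hlt
      push Not at hlt
      apply h1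
      have h4 : p ^ (mm + 2) ∣ α P.1 * X + s P := by
        refine (pow_dvd_pow _ ?_).trans (Nat.ordProj_dvd _ p)
        omega
      exact_mod_cast h4
    · apply (hp.pow_dvd_iff_le_factorization hQpos.ne').1
      exact (pow_dvd_pow_of_dvd he _).trans (hhQ e)
  have hcross : ∀ P P' : Pt k b, P.1 ≠ P'.1 → α P.1 * s P' ≠ α P'.1 * s P := by
    intro P P' hne heq
    rw [hs, hs] at heq
    have h1 := hN.nonprop P.1 P'.1 hne
    have h2 := hGle P.1 P'
    have h3 := hGle P'.1 P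
    have heq' : d0 * (α P.1 * β P'.1) + D * (α P.1 * Po α β P') =
        d0 * (α P'.1 * β P.1) + D * (α P'.1 * Po α β P) := by
      calc _ = α P.1 * (β P'.1 * d0 + D * Po α β P') := by ring
        _ = α P'.1 * (β P.1 * d0 + D * Po α β P) := heq
        _ = _ := by ring
    rcases lt_or_gt_of_ne h1 with hlt | hlt
    · have h4 : d0 * (α P.1 * β P'.1 + 1) ≤ d0 * (α P'.1 * β P.1) :=
        Nat.mul_le_mul_left _ hlt
      rw [mul_add, mul_one] at h4
      omega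
    · have h4 : d0 * (α P'.1 * β P.1 + 1) ≤ d0 * (α P.1 * β P'.1) :=
        Nat.mul_le_mul_left _ hlt
      rw [mul_add, mul_one] at h4
      omega
  have hlev : ∀ P P' : Pt k b, F P' = F P → P'.1 = P.1 := by
    intro P P' h1
    by_contra hne
    apply hcross _ _ hne
    rw [hF, hF, Prod.mk.injEq] at h1
    rw [h1.1, h1.2]
  have hfl : ∀ w : ℕ × ℕ, ∃ L : List ℕ, w ∈ univ.image F → (∀ m ∈ L, 1 ≤ m) ∧
      ∀ {Δ : Type} [CommMonoid Δ] (g : ℕ → Δ), g 0 = 1 →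
        (∏ p ∈ Q.primeFactors, g ((w.1 * X + w.2).factorization p)) * (L.map g).prod =
          ∏ j ∈ Icc 1 (mm + 1), g j ^ Z := by
    intro w
    by_cases hw : w ∈ univ.image F
    · obtain ⟨L, hL1, hL2⟩ := filler Q.primeFactors (fun p => (w.1 * X + w.2).factorization p)
        (mm + 1) Z homQ (by
          intro p hp
          obtain ⟨P, -, rfl⟩ := mem_image.1 hw
          rw [hF]
          exact (hexp P p (Nat.prime_of_mem_primeFactors hp) (Nat.dvd_of_mem_primeFactors hp)).1)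
      exact ⟨L, fun _ => ⟨hL1, hL2⟩⟩
    · exact ⟨[], fun h => absurd h hw⟩
  choose fl hfl using hfl
  obtain ⟨exL, hexL⟩ : ∃ exL : ℕ × ℕ → List ℕ, ∀ P, exL (F P) = fl (F P) ++ ex P.1 := by
    refine ⟨fun w => if hw : ∃ P, F P = w then fl w ++ ex (hw.choose).1 else [], ?_⟩
    intro P
    have hw : ∃ P', F P' = F P := ⟨P, rfl⟩
    simp only [dif_pos hw]
    rw [hlev P _ hw.choose_spec]
  have hd0pos : 0 < d0 := by omega
  have hspos : ∀ P, 0 < s P := by
    intro P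
    rw [hs]
    have := Nat.mul_pos (hN.bpos P.1) hd0pos
    omega
  obtain ⟨Q', X', c, a, d, hQ'pos, hQQ', hX'X, hv⟩ := eqz2 (univ.image F) Q X exL hQpos (by
      intro w hw
      rw [mem_image] at hw
      obtain ⟨P, _, rfl⟩ := hw
      rw [hF]
      refine ⟨hN.apos _, hspos P, ?_⟩
      show Nat.Coprime (α P.1) (s P)
      rw [Nat.coprime_iff_gcd_eq_one]
      by_contra hne
      obtain ⟨p, hp, hpd⟩ := Nat.exists_prime_and_dvd hne
      have h1 := hN.rad P.1 p hp (hpd.trans (Nat.gcd_dvd_left _ _))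
      have h2 := hpd.trans (Nat.gcd_dvd_right _ _)
      rw [hs] at h2
      have h3 : p ∣ β P.1 * d0 := (Nat.dvd_add_left (h1.mul_right _)).1 h2
      rcases (hp.dvd_mul).1 h3 with h4 | h4
      · have h5 := Nat.dvd_gcd h4 h1
        rw [hN.cop] at h5
        exact hp.one_lt.ne' (Nat.dvd_one.1 h5)
      · exact not_dvd_one_mod hp (h1.trans hDM0) hd01 h4)
    (by
      intro w hw w' hw' hne
      rw [mem_image] at hw hw'
      obtain ⟨P, _, rfl⟩ := hw
      obtain ⟨P', _, rfl⟩ := hw'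
      rw [hF, hF] at hne ⊢
      show α P.1 * s P' ≠ α P'.1 * s P
      by_cases hPP : P.1 = P'.1
      · intro heq
        rw [hPP] at heq hne
        have := Nat.eq_of_mul_eq_mul_left (hN.apos _) heq
        exact hne (by rw [this])
      · exact hcross P P' hPP)
    (by
      intro w hw p hp hpQ'
      obtain ⟨P, -, rfl⟩ := mem_image.1 hw
      rw [hF]
      have := hexp P p hp hpQ'
      show (α P.1 * X + s P).factorization p < _
      omega)
    (by
      intro w hw m hm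
      obtain ⟨P, -, rfl⟩ := mem_image.1 hw
      rw [hexL] at hm
      rcases List.mem_append.1 hm with h1 | h1
      · exact (hfl (F P) hw).1 m h1
      · exact hex P.1 m h1)
  have hvF : ∀ P, _ := fun P => hv (F P) (mem_image_of_mem F (mem_univ P))
  obtain ⟨Cb, hCb⟩ : ∃ Cb : ℕ, Cb = ∑ P, c (F P) := ⟨_, rfl⟩
  refine ⟨Cb, ?_⟩
  obtain ⟨W, hW⟩ : ∃ W : ℕ, W = m0 + D * (Q' + X' + ∑ e, σ e) + 1 := ⟨_, rfl⟩
  have hW1 : 1 ≤ W := by omega
  -- the arguments
  have hYm : ∀ n e, Q' * n + X' ≡ X [MOD h e ^ (mm + 3)] := by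
    intro n e
    have h1 : Q' * n ≡ 0 [MOD Q] := (Nat.modEq_zero_iff_dvd).2 (hQQ'.mul_right n)
    have h2 := h1.add hX'X
    rw [zero_add] at h2
    exact h2.of_dvd (hhQ e)
  have hhQ' : ∀ e, h e ∣ Q' := fun e =>
    ((dvd_pow_self _ (Nat.succ_ne_zero _)).trans (hhQ e)).trans hQQ'
  have hdX : ∀ e, h e ∣ X' + σ e := by
    intro e
    obtain ⟨y, hy, -⟩ := hlineY X' e (by
      have := hYm 0 e
      rwa [mul_zero, zero_add] at this)
    exact ⟨y, hy⟩
  obtain ⟨yy, hyy⟩ : ∃ yy : Ln k b → ℕ → ℕ, ∀ e n,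
      yy e n = (Q' / h e) * n + (X' + σ e) / h e := ⟨_, fun _ _ => rfl⟩
  have hyyh : ∀ e n, h e * yy e n = Q' * n + X' + σ e := by
    intro e n
    rw [hyy, mul_add, ← mul_assoc, Nat.mul_div_cancel' (hhQ' e), Nat.mul_div_cancel' (hdX e)]
    ring
  have hyyle : ∀ e n, 1 ≤ n → yy e n ≤ (Q' + X' + ∑ e, σ e) * n := by
    intro e n hn
    have h1 : yy e n ≤ Q' * n + X' + σ e := by
      rw [← hyyh e n]; exact Nat.le_mul_of_pos_left _ (hhpos e)
    have h2 : σ e ≤ ∑ e, σ e := Finset.single_le_sum (fun _ _ => Nat.zero_le _) (mem_univ e)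
    have h4 : X' ≤ X' * n := Nat.le_mul_of_pos_right _ hn
    have h5 : ∑ e, σ e ≤ (∑ e, σ e) * n := Nat.le_mul_of_pos_right _ hn
    calc yy e n ≤ Q' * n + X' * n + (∑ e, σ e) * n := by omega
      _ = _ := by ring
  have hyyge : ∀ e n, n ≤ yy e n := by
    intro e n
    rw [hyy]
    have h1 : 1 ≤ Q' / h e := Nat.div_pos (Nat.le_of_dvd hQ'pos (hhQ' e)) (hhpos e)
    have h2 := Nat.le_mul_of_pos_left n h1
    exact h2.trans (Nat.le_add_right _ _)
  have : Nonempty (Ln k b) := ⟨fun _ => ⟨0, by omega⟩⟩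
  refine count_map2 (E := Ln k b) W K0 hW1 (fun e n => m0 + D * yy e n) ?_ ?_
    (fun X n => (∀ P, Squarefree (a (F P) * n + d (F P))) ∧
      ∑ P, (a (F P) * n + d (F P)).primeFactors.card ≤
        (k + 1) * b ^ k * (C2 * (Nat.log 2 ((k + 1) * b ^ k) + 1)) ∧
      ∀ P, ∀ p : ℕ, p.Prime → p ∣ a (F P) * n + d (F P) → X < p ^ K0)
    (fun X n => GoodV f u v (fun i => ((ex i).map f).prod)
      (Φ0 * f 1 ^ (T + 1) * Km ^ Cm / f 1 ^ Nn) M (K0 + 1) Cb X n) ?_ ?_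
  · intro e n n' hnn
    have h1 : D * yy e n = D * yy e n' := by
      have : m0 + D * yy e n = m0 + D * yy e n' := hnn
      omega
    have h2 := Nat.eq_of_mul_eq_mul_left hN.Dpos h1
    have h3 : h e * yy e n = h e * yy e n' := by rw [h2]
    rw [hyyh, hyyh] at h3
    exact Nat.eq_of_mul_eq_mul_left hQ'pos (by omega)
  · intro e n hn
    have h1 := hyyle e n hn
    have h6 : m0 ≤ m0 * n := Nat.le_mul_of_pos_right _ hn
    show m0 + D * yy e n ≤ W * n
    calc m0 + D * yy e n ≤ m0 * n + D * ((Q' + X' + ∑ e, σ e) * n) :=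
          Nat.add_le_add h6 (Nat.mul_le_mul_left _ h1)
      _ ≤ m0 * n + D * ((Q' + X' + ∑ e, σ e) * n) + 1 * n := Nat.le_add_right _ _
      _ = W * n := by rw [hW]; ring
  · have h1 := hS2 (Pt k b) hcardP (fun P => a (F P)) (fun P => d (F P)) (by
        intro P
        have h2 := (hvF P).2.2.2.2.2.2.2 0
        rw [mul_zero, zero_add, mul_zero, zero_add] at h2
        have h3 : 0 < (F P).1 * X' + (F P).2 := by
          rw [hF]
          have := hspos P
          show 0 < α P.1 * X' + s P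
          omega
        rw [h2] at h3
        exact Nat.pos_of_mul_pos_left h3)
      (fun P => (hvF P).2.2.2.1)
      (by
        intro p hp hpb P
        have h1 : p ∣ D := hN.small p hp (by omega)
        have h2 : p ∣ (F P).1 := by rw [hF]; exact h1.trans (hN.dvd _)
        exact h2.trans (hvF P).2.2.2.2.1)
    filter_upwards [h1] with X1 hX1
    refine hX1.trans (le_of_eq ?_)
    rw [← Set.ncard_coe_finset]
    congr 2
    ext n
    rw [mem_coe, mem_filter, mem_Icc, Set.mem_ofPred_eq, and_assoc]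
  · filter_upwards [eventually_ge_atTop ((2 * W) ^ K0)] with X1 hX1
    intro n hn1 hnX hgood
    obtain ⟨hsq, hsum, hrough⟩ := hgood
    obtain ⟨e, he⟩ := hcomb (fun P => om (a (F P) * n + d (F P))) (by
      have h1 : ∑ P, om (a (F P) * n + d (F P)) ≤
        (k + 1) * b ^ k * (C2 * (Nat.log 2 ((k + 1) * b ^ k) + 1)) := hsum
      omega)
    refine ⟨e, fun X2 hX2 => ?_⟩
    obtain ⟨y, hyd⟩ : ∃ y, y = yy e n := ⟨_, rfl⟩
    have hy : Q' * n + X' + σ e = h e * y := by rw [hyd, hyyh]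
    have hy0' : y ≡ y0 e [MOD h e ^ (mm + 2)] := by
      obtain ⟨y', hy', hy'2⟩ := hlineY (Q' * n + X') e (hYm n e)
      have : y = y' := Nat.eq_of_mul_eq_mul_left (hhpos e) (hy.symm.trans hy')
      rwa [this]
    have hyn : n ≤ y := by rw [hyd]; exact hyyge e n
    show GoodV f u v _ _ M (K0 + 1) Cb X2 (m0 + D * yy e n)
    rw [← hyd]
    refine ⟨?_, ?_⟩
    · have : y ≤ D * y := Nat.le_mul_of_pos_left _ hN.Dpos
      omega
    intro l
    obtain ⟨hc0, hcF, ha0, hacop, -, hQa, hcQ, hcn⟩ := hvF (pt l e)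
    have hZ : h e * (α l * y + β l) = c (F (pt l e)) * (a (F (pt l e)) * n + d (F (pt l e))) := by
      rw [← hcn n, hF]
      show h e * (α l * y + β l) = α l * (Q' * n + X') + s (pt l e)
      rw [← hline e l]
      calc h e * (α l * y + β l) = α l * (h e * y) + β l * h e := by ring
        _ = α l * (Q' * n + X' + σ e) + β l * h e := by rw [hy]
        _ = _ := by ring
    obtain ⟨S, hSdef⟩ : ∃ S, S = a (F (pt l e)) * n + d (F (pt l e)) := ⟨_, rfl⟩
    have hSsq : Squarefree S := by rw [hSdef]; exact hsq (pt l e)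
    have hSrough : ∀ p : ℕ, p.Prime → p ∣ S → X1 < p ^ K0 := by
      rw [hSdef]; exact hrough (pt l e)
    rw [← hSdef] at hZ
    have hQS : ∀ p, p.Prime → p ∣ Q' → ¬ p ∣ S := by
      intro p hp hpQ hpS
      have h1 := hQa p hp hpQ
      rw [hSdef] at hpS
      have h2 : p ∣ d (F (pt l e)) := (Nat.dvd_add_right (h1.mul_right _)).1 hpS
      have h3 := Nat.dvd_gcd h1 h2
      rw [hacop] at h3
      exact hp.one_lt.ne' (Nat.dvd_one.1 h3)
    have hcopS : ∀ x, x ∣ Q' → Nat.Coprime x S := by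
      intro x hx
      rw [Nat.coprime_iff_gcd_eq_one]
      by_contra hne
      obtain ⟨p, hp, hpd⟩ := Nat.exists_prime_and_dvd hne
      exact hQS p hp ((hpd.trans (Nat.gcd_dvd_left _ _)).trans hx)
        (hpd.trans (Nat.gcd_dvd_right _ _))
    have hhc : h e ∣ c (F (pt l e)) := by
      have h1 : h e ∣ c (F (pt l e)) * S := ⟨_, hZ.symm⟩
      exact (hcopS _ (hhQ' e)).dvd_of_dvd_mul_right h1
    obtain ⟨c', hc'⟩ := hhc
    have hval : α l * y + β l = c' * S := by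
      rw [hc', mul_assoc] at hZ
      exact Nat.eq_of_mul_eq_mul_left (hhpos e) hZ
    have hfpos : α l * y + β l ≠ 0 := by
      have := hN.bpos l
      omega
    refine ⟨c', S, ?_, ?_, hSsq, ?_, ?_, ?_⟩
    · rw [hform l y, hval]
    · have h1 : c' ≤ c (F (pt l e)) := by
        rw [hc']; exact Nat.le_mul_of_pos_left _ (hhpos e)
      have h2 : c (F (pt l e)) ≤ Cb := by
        rw [hCb]
        exact Finset.single_le_sum (f := fun P => c (F P)) (fun _ _ => Nat.zero_le _)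
          (mem_univ (pt l e))
      exact h1.trans h2
    · intro p hp hpS
      have h1 := hSrough p hp hpS
      have h2 : 2 * W < p := by
        by_contra hle
        push Not at hle
        have h3 := Nat.pow_le_pow_left hle K0
        omega
      calc X2 < 2 * W * X1 := hX2
        _ ≤ p * p ^ K0 := Nat.mul_le_mul h2.le h1.le
        _ = p ^ (K0 + 1) := by ring
    · intro p hp hpd
      rw [← hval] at hpd
      by_contra hle
      have h1 : p ∣ D := hN.small p hp (by omega)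
      have h2 : p ∣ α l := h1.trans (hN.dvd l)
      have h3 : p ∣ β l := (Nat.dvd_add_right (h2.mul_right _)).1 hpd
      have h4 := Nat.dvd_gcd h3 h1
      rw [hN.cop] at h4
      exact hp.one_lt.ne' (Nat.dvd_one.1 h4)
    · rw [← hval]
      have hc2 : Fm f (c (F (pt l e))) = Φ0 * ((ex l).map f).prod := by
        rw [hcF f hf0, hexL, List.map_append, List.prod_append, ← mul_assoc,
          (hfl (F (pt l e)) (mem_image_of_mem F (mem_univ _))).2 f hf0, ← hΦ0]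
        rfl
      have h1 := Fm_kap f hf0 (hhsq e) hfpos
      rw [(hy0 e y hy0').1 (kap f) (kap_zero f hf0) l, mix_prod f Lp Lm hrel (hcntle e l), ← hKm,
        hZ, Fm_mul f hc0.ne' hSsq.ne_zero (hcopS _ hcQ), hc2, Fm_sqfree f hSsq,
        Fm_sqfree f (hhsq e)] at h1
      have h5 := he l
      beta_reduce at h5
      rw [← hSdef] at h5
      have h10 := hhN e
      have h11 := hcnt e l
      have h12 : S.primeFactors.card + cnt e l + Nn = (T + 1) + (h e).primeFactors.card := by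
        unfold om at h5 h10 h11
        omega
      have h13 : f 1 ^ S.primeFactors.card * f 1 ^ cnt e l * f 1 ^ Nn =
          f 1 ^ (T + 1) * f 1 ^ (h e).primeFactors.card := by
        rw [← pow_add, ← pow_add, h12, pow_add]
      have h14 : f 1 ^ (h e).primeFactors.card * (Fm f (α l * y + β l) * f 1 ^ Nn) =
          f 1 ^ (h e).primeFactors.card *
            (Φ0 * f 1 ^ (T + 1) * Km ^ Cm * ((ex l).map f).prod) := by
        calc f 1 ^ (h e).primeFactors.card * (Fm f (α l * y + β l) * f 1 ^ Nn)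
            = (f 1 ^ (h e).primeFactors.card * Fm f (α l * y + β l)) * f 1 ^ Nn := by
              rw [mul_assoc]
          _ = (Φ0 * ((ex l).map f).prod * f 1 ^ S.primeFactors.card *
              (f 1 ^ cnt e l * Km ^ Cm)) * f 1 ^ Nn := by rw [← h1]
          _ = (f 1 ^ S.primeFactors.card * f 1 ^ cnt e l * f 1 ^ Nn) *
              (Φ0 * Km ^ Cm * ((ex l).map f).prod) := by ac_rfl
          _ = _ := by rw [h13]; ac_rfl
      have h15 := mul_left_cancel h14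
      rw [div_mul_eq_mul_div, eq_div_iff_mul_eq']
      exact h15

end Pool.Agent.Y887.DE
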