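import Mathlib
import Pool.Agent.Y887.DK.Fin
import Pool.Agent.Y887.DE.Mn

/-!
Patterns of consecutive integers with prescribed values of a prime independent multiplicative
function.
-/

set_option autoImplicit false

namespace Pool.Agent.Y887.DE

open Finset Filter Pool.Agent.Y887.DK

theorem exists_list {Γ : Type} [CommGroup Γ] (f : ℕ → Γ) (γ : Γ)
    (hγ : γ ∈ Submonoid.closure (f '' {j | 1 ≤ j})) :
    ∃ L : List ℕ, (∀ m ∈ L, 1 ≤ m) ∧ (L.map f).prod = γ := by
  induction hγ using Submonoid.closure_induction with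
  | mem x hx =>
    obtain ⟨k, hk, rfl⟩ := hx
    exact ⟨[k], by simpa using hk, by simp⟩
  | one => exact ⟨[], by simp, by simp⟩
  | mul x y _ _ hx hy =>
    obtain ⟨U, h1, h2⟩ := hx
    obtain ⟨V, h3, h4⟩ := hy
    refine ⟨U ++ V, fun m hm => ?_, ?_⟩
    · rcases List.mem_append.1 hm with h | h
      · exact h1 m h
      · exact h3 m h
    · rw [List.map_append, List.prod_append, h2, h4]

set_option maxHeartbeats 2000000 in
theorem pattern2 (k : ℕ) (hk : 2 ≤ k) {Γ : Type} [CommGroup Γ] (f : ℕ → Γ) (u v : Multiset ℕ)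
    (hu : ∀ j ∈ u, 1 ≤ j) (hv : ∀ j ∈ v, 1 ≤ j) (hsum : u.sum = v.sum + 1)
    (huv : (u.map f).prod = (v.map f).prod) :
    ∃ (Φ : Γ) (K : ℕ), ∀ H : Finset ℕ, H.card = k →
      (∀ p : ℕ, p.Prime → ∃ r : ℕ, r < p ∧ ∀ h ∈ H, h % p ≠ r) →
      ∀ γ : ℕ → Γ, (∀ h ∈ H, γ h ∈ Submonoid.closure (f '' {j | 1 ≤ j})) →
      ∀ N D : ℕ, (∀ h ∈ H, h ≤ D) → ∃ Q C : ℕ, N ≤ Q ∧ ∀ᶠ X : ℕ in atTop,
        (X : ℝ) / Real.log X ^ K ≤ ({n : ℕ | n ≤ X ∧
          (∀ m : ℕ, n ≤ m + D → m ≤ n + D → (∀ h ∈ H, m ≠ n + h) →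
            N ≤ (m.primeFactors.filter (fun p => p ≤ Q)).card) ∧
          ∀ h ∈ H, Fm f (n + h) = Φ * γ h ∧ (∀ p : ℕ, p.Prime → p ∣ n + h → Q < p) ∧
            ∃ c s : ℕ, n + h = c * s ∧ c ≤ C ∧ Squarefree s ∧
              ∀ p : ℕ, p.Prime → p ∣ s → X < p ^ K}.ncard : ℝ) := by
  classical
  obtain ⟨f', hf'0, hf'⟩ : ∃ f' : ℕ → Γ, f' 0 = 1 ∧ ∀ k, 1 ≤ k → f' k = f k := by
    refine ⟨fun k => if k = 0 then 1 else f k, by simp, fun k hk => ?_⟩
    have : k ≠ 0 := by omega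
    simp [this]
  have hp' : (u.map f').prod = (v.map f').prod := by
    rw [Multiset.map_congr rfl (fun k hk => hf' k (hu k hk)), huv,
      Multiset.map_congr rfl (fun k hk => hf' k (hv k hk))]
  obtain ⟨Lp, Lm, -, -, hrel⟩ := kap_gadget f' u v hu hv hsum hp'
  obtain ⟨k', rfl⟩ : ∃ k', k = k' + 1 := ⟨k - 1, by omega⟩
  obtain ⟨Φ, K, hmain⟩ := main k' (by omega) f' hf'0 Lp Lm hrel
  refine ⟨Φ, K + 1, ?_⟩
  intro H hcard hadm γ hγ N D hD
  -- the primes of the other positions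
  obtain ⟨P, hP⟩ : ∃ P : ℕ → Fin N → ℕ,
      ∀ j i, P j i = Nat.nth Nat.Prime (N + 2 * D + 1 + (j * N + i)) := ⟨_, fun _ _ => rfl⟩
  have hPp : ∀ j i, (P j i).Prime := fun j i => by rw [hP]; exact Nat.prime_nth_prime _
  have hPinj : ∀ j i j' i', P j i = P j' i' → j = j' ∧ i = i' := by
    intro j i j' i' h
    rw [hP, hP] at h
    have h1 := (Nat.nth_injective Nat.infinite_setOfPred_prime) h
    have h2 : j * N + i = j' * N + i' := by omega
    have h3 := i.2
    have h4 := i'.2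
    have h5 : j = j' := by
      rcases lt_trichotomy j j' with h | h | h
      · nlinarith
      · exact h
      · nlinarith
    subst h5
    exact ⟨rfl, Fin.ext (by omega)⟩
  have hPbig : ∀ j i, N + 2 * D + 1 < P j i := by
    intro j i
    have h1 : N + 2 * D + 1 + (j * N + i) + 2 ≤ P j i := by
      rw [hP]; exact Nat.add_two_le_nth_prime _
    omega
  obtain ⟨J, hJ⟩ : ∃ J : Finset ℕ, J = (range (2 * D + 1)).filter (fun j => ∀ h ∈ H, j ≠ D + h) :=
    ⟨_, rfl⟩
  obtain ⟨S, hS⟩ : ∃ S : Finset ℕ, S = J.biUnion (fun j => univ.image (P j)) := ⟨_, rfl⟩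
  have hSm : ∀ p, p ∈ S ↔ ∃ j ∈ J, ∃ i, P j i = p := by
    intro p
    rw [hS, mem_biUnion]
    constructor
    · rintro ⟨j, hj, hp⟩
      obtain ⟨i, -, hi⟩ := mem_image.1 hp
      exact ⟨j, hj, i, hi⟩
    · rintro ⟨j, hj, i, hi⟩
      exact ⟨j, hj, mem_image.2 ⟨i, mem_univ _, hi⟩⟩
  have hSp : ∀ p ∈ S, p.Prime := by
    intro p hp
    obtain ⟨j, -, i, rfl⟩ := (hSm p).1 hp
    exact hPp j i
  obtain ⟨c, hcD, hc⟩ := Pool.Agent.Y887.TD.crt_pow S hSp 1
    (fun p => if h : ∃ x : ℕ × Fin N, P x.1 x.2 = p then (D : ℤ) - h.choose.1 else 0) (D + 1)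
  have hc' : ∀ j ∈ J, ∀ i, (P j i : ℤ) ∣ (c : ℤ) - (D - j) := by
    intro j hj i
    have h1 := hc (P j i) ((hSm _).2 ⟨j, hj, i, rfl⟩)
    have h2 : ∃ x : ℕ × Fin N, P x.1 x.2 = P j i := ⟨(j, i), rfl⟩
    rw [pow_one, dif_pos h2, (hPinj _ _ _ _ h2.choose_spec).1] at h1
    exact h1
  obtain ⟨q, hq⟩ : ∃ q : ℕ, q = ∏ p ∈ S, p := ⟨_, rfl⟩
  have hq1 : 1 ≤ q := by rw [hq]; exact prod_pos fun p hp => (hSp p hp).pos
  obtain ⟨Q, hQ⟩ : ∃ Q : ℕ, Q = N + ∑ p ∈ S, p := ⟨_, rfl⟩
  -- the forms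
  have hHF : Fintype.card H = k' + 1 := by simpa using hcard
  obtain ⟨eH⟩ : Nonempty (H ≃ Fin (k' + 1)) := ⟨Fintype.equivFinOfCardEq hHF⟩
  choose Lγ hLγ1 hLγ2 using fun i : Fin (k' + 1) => exists_list f (γ (eH.symm i : ℕ)) (hγ _ (eH.symm i).2)
  obtain ⟨C, hC⟩ := hmain (fun _ => (q : ℤ)) (fun i => (c : ℤ) + ((eH.symm i : ℕ) : ℤ))
    (fun _ => by exact_mod_cast hq1)
    (by
      intro i j hij hh
      apply hij
      have h1 : ((eH.symm i : ℕ) : ℤ) = ((eH.symm j : ℕ) : ℤ) := by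
        have := hh.2
        simpa using this
      have h2 : (eH.symm i : ℕ) = (eH.symm j : ℕ) := by exact_mod_cast h1
      exact eH.symm.injective (Subtype.ext h2))
    (by
      intro p hp
      by_cases hpq : p ∣ q
      · refine ⟨0, fun i hd => ?_⟩
        rw [hq] at hpq
        obtain ⟨p', hp', hpp⟩ := (Prime.dvd_finset_prod_iff hp.prime _).1 hpq
        have hpe := (Nat.prime_dvd_prime_iff_eq hp (hSp p' hp')).1 hpp
        subst hpe
        obtain ⟨j, hj, i', hji⟩ := (hSm p).1 hp'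
        have h1 := hc' j hj i'
        rw [hji] at h1
        have h2 : (p : ℤ) ∣ (D : ℤ) + (eH.symm i : ℕ) - j := by
          have e1 : (D : ℤ) + (eH.symm i : ℕ) - j = ((q : ℤ) * ((0 : ℕ) : ℤ) +
              ((c : ℤ) + (eH.symm i : ℕ))) - ((c : ℤ) - (D - j)) := by
            push_cast
            ring
          rw [e1]
          exact dvd_sub hd h1
        have hjJ := hj
        rw [hJ, mem_filter, mem_range] at hjJ
        have h3 := hjJ.2 _ (eH.symm i).2
        have h4 := hD _ (eH.symm i).2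
        have h5 := hPbig j i'
        rw [hji] at h5
        have h6 : (D : ℤ) + (eH.symm i : ℕ) - j = 0 := by
          apply Int.eq_zero_of_abs_lt_dvd h2
          rw [abs_lt]
          constructor <;> omega
        omega
      · obtain ⟨r, hr, hrH⟩ := hadm p hp
        obtain ⟨x, hx⟩ := root_pow hp hpq (c + r) 1
        rw [pow_one] at hx
        refine ⟨x, fun i hd => ?_⟩
        apply hrH _ (eH.symm i).2
        have h1 : (p : ℤ) ∣ ((eH.symm i : ℕ) : ℤ) - r := by
          have h2 : (p : ℤ) ∣ ((q * x + (c + r) : ℕ) : ℤ) := by exact_mod_cast hx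
          have e1 : ((eH.symm i : ℕ) : ℤ) - r = ((q : ℤ) * ((x : ℕ) : ℤ) +
              ((c : ℤ) + (eH.symm i : ℕ))) - ((q * x + (c + r) : ℕ) : ℤ) := by
            push_cast
            ring
          rw [e1]
          exact dvd_sub hd h2
        have h2 : r ≡ (eH.symm i : ℕ) [MOD p] := (Nat.modEq_iff_dvd).2 h1
        have h3 := h2.symm
        unfold Nat.ModEq at h3
        rw [h3, Nat.mod_eq_of_lt hr])
    Lγ hLγ1 Q
  refine ⟨Q, C, by omega, ?_⟩
  refine count_map2 (E := Unit) (q + c) K (by omega) (fun _ m => q * m + c) ?_ ?_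
    (fun X n => GoodV f' (fun _ => (q : ℤ)) (fun i => (c : ℤ) + ((eH.symm i : ℕ) : ℤ))
      (fun i => ((Lγ i).map f').prod) Φ Q K C X n)
    (fun X n => (∀ m : ℕ, n ≤ m + D → m ≤ n + D → (∀ h ∈ H, m ≠ n + h) →
            N ≤ (m.primeFactors.filter (fun p => p ≤ Q)).card) ∧
          ∀ h ∈ H, Fm f (n + h) = Φ * γ h ∧ (∀ p : ℕ, p.Prime → p ∣ n + h → Q < p) ∧
            ∃ c s : ℕ, n + h = c * s ∧ c ≤ C ∧ Squarefree s ∧
              ∀ p : ℕ, p.Prime → p ∣ s → X < p ^ (K + 1)) ?_ ?_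
  · intro _ m m' hmm
    have h1 : q * m + c = q * m' + c := hmm
    exact Nat.eq_of_mul_eq_mul_left hq1 (by omega)
  · intro _ m hm
    show q * m + c ≤ (q + c) * m
    nlinarith
  · filter_upwards [hC] with X hX
    refine hX.trans (le_of_eq ?_)
    congr 2
    ext n
    simp only [Set.mem_ofPred_eq]
    constructor
    · rintro ⟨h1, h2⟩
      exact ⟨h2.1, h1, h2⟩
    · rintro ⟨_, h1, h2⟩
      exact ⟨h1, h2⟩
  · filter_upwards [eventually_ge_atTop ((2 * (q + c)) ^ K)] with X1 hX1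
    intro n _ _ hgood
    refine ⟨(), fun X2 hX2 => ?_⟩
    obtain ⟨-, hgood⟩ := hgood
    refine ⟨?_, ?_⟩
    · intro m hm1 hm2 hmH
      have hm1' : q * n + c ≤ m + D := hm1
      have hm2' : m ≤ q * n + c + D := hm2
      have hmH' : ∀ h ∈ H, m ≠ q * n + c + h := hmH
      have hjJ : m + D - (q * n + c) ∈ J := by
        rw [hJ, mem_filter, mem_range]
        refine ⟨by omega, fun h hh heq => hmH' h hh ?_⟩
        omega
      have hm0 : m ≠ 0 := by omega
      obtain ⟨j, hj⟩ : ∃ j, j = m + D - (q * n + c) := ⟨_, rfl⟩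
      rw [← hj] at hjJ
      have hdvd : ∀ i, P j i ∣ m := by
        intro i
        have h1 := hc' j hjJ i
        have h2 : (P j i : ℤ) ∣ (q : ℤ) := by
          have : P j i ∣ ∏ p ∈ S, p := dvd_prod_of_mem (fun p => p) ((hSm _).2 ⟨j, hjJ, i, rfl⟩)
          rw [← hq] at this
          exact_mod_cast this
        have h3 : (P j i : ℤ) ∣ (m : ℤ) := by
          have e1 : (m : ℤ) = (q : ℤ) * n + ((c : ℤ) - (D - (j : ℤ))) := by
            omega
          rw [e1]
          exact dvd_add (h2.mul_right _) h1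
        exact_mod_cast h3
      have hsub : univ.image (P j) ⊆ m.primeFactors.filter (fun p => p ≤ Q) := by
        intro p hp
        obtain ⟨i, -, rfl⟩ := mem_image.1 hp
        rw [mem_filter]
        refine ⟨Nat.mem_primeFactors.2 ⟨hPp j i, hdvd i, hm0⟩, ?_⟩
        have h6 : P j i ≤ ∑ p ∈ S, p :=
          single_le_sum (f := fun p => p) (fun _ _ => Nat.zero_le _) ((hSm _).2 ⟨j, hjJ, i, rfl⟩)
        omega
      have h7 := card_le_card hsub
      rw [card_image_of_injective _ (fun i i' h => (hPinj _ _ _ _ h).2), card_univ,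
        Fintype.card_fin] at h7
      exact h7
    · intro h hh
      obtain ⟨c1, s1, h1, h2, h3, h4, h5, h6⟩ := hgood (eH ⟨h, hh⟩)
      have hval : q * n + c + h = c1 * s1 := by
        simp only [Equiv.symm_apply_apply] at h1
        have h7 : ((q * n + c + h : ℕ) : ℤ) = ((c1 * s1 : ℕ) : ℤ) := by
          rw [← h1]
          push_cast
          ring
        exact_mod_cast h7
      have hγ2 := hLγ2 (eH ⟨h, hh⟩)
      simp only [Equiv.symm_apply_apply] at hγ2
      refine ⟨?_, ?_, c1, s1, hval, h2, h3, ?_⟩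
      · show Fm f (q * n + c + h) = Φ * γ h
        rw [hval, Fm_congr (fun k hk => (hf' k hk).symm), h6]
        congr 1
        show ((Lγ (eH ⟨h, hh⟩)).map f').prod = γ h
        rw [← hγ2]
        congr 1
        apply List.map_congr_left
        intro m hm
        exact hf' m (hLγ1 _ m hm)
      · intro p hp hpd
        have hpd' : p ∣ q * n + c + h := hpd
        rw [hval] at hpd'
        exact h5 p hp hpd'
      · intro p hp hpd
        have h7 := h4 p hp hpd
        have h8 : 2 * (q + c) < p := by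
          by_contra hle
          push Not at hle
          have h9 := Nat.pow_le_pow_left hle K
          omega
        calc X2 < 2 * (q + c) * X1 := hX2
          _ ≤ p * p ^ K := Nat.mul_le_mul h8.le h7.le
          _ = p ^ (K + 1) := by ring

end Pool.Agent.Y887.DE
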