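import Mathlib
import Pool.Agent.Y887.DK.Fin
import Pool.Agent.Y887.DE.Mn
import Pool.Agent.Y887.DE.Pt

/-!
Arbitrary patterns of integers with prescribed values of a prime independent multiplicative function.
-/

set_option autoImplicit false

namespace Pool.Agent.Y887.DE

open Finset Filter Pool.Agent.Y887.DK

/-- an argument which is not a root of any of few linear forms -/
theorem exists_nonroot {ι : Type} [Fintype ι] {p : ℕ} (hp : p.Prime) (hk : Fintype.card ι < p)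
    (a b : ι → ℕ) (ha : ∀ i, ¬ p ∣ a i) : ∃ x : ℕ, ∀ i, ¬ p ∣ a i * x + b i := by
  classical
  by_contra hcon
  push Not at hcon
  choose φ hφ using fun t : Fin p => hcon t
  obtain ⟨t, t', htt, hff⟩ := Fintype.exists_ne_map_eq_of_card_lt φ (by simpa using hk)
  have h1 := hφ t
  have h2 := hφ t'
  rw [← hff] at h2
  have h3 : (p : ℤ) ∣ (a (φ t) : ℤ) * (((t : ℕ) : ℤ) - ((t' : ℕ) : ℤ)) := by
    have e1 : (a (φ t) : ℤ) * (((t : ℕ) : ℤ) - ((t' : ℕ) : ℤ)) =
        ((a (φ t) * t + b (φ t) : ℕ) : ℤ) - ((a (φ t) * t' + b (φ t) : ℕ) : ℤ) := by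
      push_cast; ring
    rw [e1]
    exact dvd_sub (by exact_mod_cast h1) (by exact_mod_cast h2)
  rcases (Nat.prime_iff_prime_int.1 hp).dvd_or_dvd h3 with h4 | h4
  · exact ha _ (by exact_mod_cast h4)
  · have h5 := t.2
    have h6 := t'.2
    have h7 : ((t : ℕ) : ℤ) - ((t' : ℕ) : ℤ) = 0 := by
      apply Int.eq_zero_of_abs_lt_dvd h4
      rw [abs_lt]
      constructor <;> omega
    apply htt
    apply Fin.ext
    omega

/-- residues modulo prime powers with small exponents -/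
theorem exists_small (k : ℕ) (H : Finset ℕ) (hH : H.card = k) {p : ℕ} (hp : p.Prime) :
    ∃ x : ℕ, (∀ h ∈ H, ¬ p ^ k ∣ x + h) ∧
      ((∃ r : ℕ, r < p ∧ ∀ h ∈ H, h % p ≠ r) → ∀ h ∈ H, ¬ p ∣ x + h) := by
  classical
  by_cases hr : ∃ r : ℕ, r < p ∧ ∀ h ∈ H, h % p ≠ r
  · obtain ⟨r, hrp, hrH⟩ := hr
    have key : ∀ h ∈ H, ¬ p ∣ (p - r) + h := by
      intro h hh hd
      apply hrH h hh
      have h1 : r ≡ h [MOD p] := by
        rw [Nat.modEq_iff_dvd]
        have h2 : (p : ℤ) ∣ (((p - r) + h : ℕ) : ℤ) := by exact_mod_cast hd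
        have e1 : (h : ℤ) - r = (((p - r) + h : ℕ) : ℤ) - p := by
          rw [Nat.cast_add, Nat.cast_sub hrp.le]; ring
        rw [e1]
        exact dvd_sub h2 dvd_rfl
      have h3 := h1.symm
      unfold Nat.ModEq at h3
      rw [h3, Nat.mod_eq_of_lt hrp]
    refine ⟨p - r, fun h hh hd => key h hh ?_, fun _ => key⟩
    have hk : k ≠ 0 := by
      rintro rfl
      rw [card_eq_zero] at hH
      rw [hH] at hh
      exact absurd hh (notMem_empty _)
    exact (dvd_pow_self p hk).trans hd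
  · have h1 : ∃ x : ℕ, ∀ h ∈ H, ¬ p ^ k ∣ x + h := by
      by_contra hcon
      push Not at hcon
      have hlt : Fintype.card H < Fintype.card (Fin (p ^ k)) := by
        rw [Fintype.card_coe, hH, Fintype.card_fin]
        exact Nat.lt_pow_self hp.one_lt
      choose φ hφ1 hφ2 using fun t : Fin (p ^ k) => hcon t
      obtain ⟨t, t', htt, hff⟩ := Fintype.exists_ne_map_eq_of_card_lt
        (fun t => (⟨φ t, hφ1 t⟩ : H)) hlt
      have hff' : φ t = φ t' := congrArg Subtype.val hff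
      have h2 := hφ2 t
      have h3 := hφ2 t'
      rw [← hff'] at h3
      have h4 : ((p ^ k : ℕ) : ℤ) ∣ ((t : ℕ) : ℤ) - ((t' : ℕ) : ℤ) := by
        have e1 : ((t : ℕ) : ℤ) - ((t' : ℕ) : ℤ) = ((t + φ t : ℕ) : ℤ) - ((t' + φ t : ℕ) : ℤ) := by
          push_cast; ring
        rw [e1]
        exact dvd_sub (by exact_mod_cast h2) (by exact_mod_cast h3)
      have h5 := t.2
      have h6 := t'.2
      have h7 : ((t : ℕ) : ℤ) - ((t' : ℕ) : ℤ) = 0 := by
        apply Int.eq_zero_of_abs_lt_dvd h4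
        rw [abs_lt]
        constructor <;> omega
      apply htt
      apply Fin.ext
      omega
    obtain ⟨x, hx⟩ := h1
    exact ⟨x, hx, fun h => absurd h hr⟩

set_option maxHeartbeats 4000000 in
theorem pattern3 (k : ℕ) (hk : 2 ≤ k) {Γ : Type} [CommGroup Γ] (f : ℕ → Γ) (u v : Multiset ℕ)
    (hu : ∀ j ∈ u, 1 ≤ j) (hv : ∀ j ∈ v, 1 ≤ j) (hsum : u.sum = v.sum + 1)
    (huv : (u.map f).prod = (v.map f).prod) :
    ∃ (Φ : Γ) (K : ℕ), ∀ H : Finset ℕ, H.card = k →
      ∀ γ : ℕ → Γ, (∀ h ∈ H, γ h ∈ Submonoid.closure (f '' {j | 1 ≤ j})) →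
      ∀ N D : ℕ, (∀ h ∈ H, h ≤ D) → ∃ Q C : ℕ, N ≤ Q ∧ ∀ᶠ X : ℕ in atTop,
        (X : ℝ) / Real.log X ^ K ≤ ({n : ℕ | n ≤ X ∧
          (∀ m : ℕ, n ≤ m + D → m ≤ n + D → (∀ h ∈ H, m ≠ n + h) →
            N ≤ (m.primeFactors.filter (fun p => p ≤ Q)).card) ∧
          ∀ h ∈ H, Fm f (n + h) = Φ * γ h ∧
            (∀ p : ℕ, p.Prime → p ∣ n + h → Q < p ∨ p ≤ k ∧ ∀ r < p, ∃ h' ∈ H, h' % p = r) ∧
            ∃ c s : ℕ, n + h = c * s ∧ c ≤ C ∧ Squarefree s ∧
              ∀ p : ℕ, p.Prime → p ∣ s → X < p ^ K}.ncard : ℝ) := by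
  classical
  obtain ⟨f', hf'0, hf'⟩ : ∃ f' : ℕ → Γ, f' 0 = 1 ∧ ∀ k, 1 ≤ k → f' k = f k := by
    refine ⟨fun k => if k = 0 then 1 else f k, by simp, fun k hk => ?_⟩
    have : k ≠ 0 := by omega
    simp [this]
  have hp' : (u.map f').prod = (v.map f').prod := by
    rw [Multiset.map_congr rfl (fun k hk => hf' k (hu k hk)), huv,
      Multiset.map_congr rfl (fun k hk => hf' k (hv k hk))]
  obtain ⟨Lp, Lm, -, -, hrel⟩ := kap_gadget f' u v hu hv hsum hp'
  obtain ⟨Φ, K, hmain⟩ := main (k - 1) (by omega) f' hf'0 Lp Lm hrel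
  obtain ⟨Z1, hZ1⟩ : ∃ Z1 : ℕ, Z1 = ((range (k + 1)).filter Nat.Prime).card := ⟨_, rfl⟩
  obtain ⟨Ψ, hΨ⟩ : ∃ Ψ : Γ, Ψ = ∏ j ∈ Icc 1 k, f' j ^ Z1 := ⟨_, rfl⟩
  refine ⟨Φ * Ψ, K + 1, ?_⟩
  intro H hcard γ hγ N D hD
  -- the small primes
  obtain ⟨Sk, hSk⟩ : ∃ Sk : Finset ℕ, Sk = (range (k + 1)).filter Nat.Prime := ⟨_, rfl⟩
  have hSkm : ∀ p, p ∈ Sk ↔ p.Prime ∧ p ≤ k := by
    intro p
    rw [hSk, mem_filter, mem_range]
    constructor
    · rintro ⟨h1, h2⟩; exact ⟨h2, by omega⟩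
    · rintro ⟨h1, h2⟩; exact ⟨by omega, h1⟩
  have hxs : ∀ p : ℕ, ∃ x : ℕ, p.Prime → (∀ h ∈ H, ¬ p ^ k ∣ x + h) ∧
      ((∃ r : ℕ, r < p ∧ ∀ h ∈ H, h % p ≠ r) → ∀ h ∈ H, ¬ p ∣ x + h) := by
    intro p
    by_cases hp : p.Prime
    · obtain ⟨x, hx⟩ := exists_small k H hcard hp
      exact ⟨x, fun _ => hx⟩
    · exact ⟨0, fun h => absurd h hp⟩
  choose xs hxs using hxs
  -- the primes of the other positions
  obtain ⟨P, hP⟩ : ∃ P : ℕ → Fin N → ℕ,
      ∀ j i, P j i = Nat.nth Nat.Prime (N + 2 * D + 1 + k + (j * N + i)) := ⟨_, fun _ _ => rfl⟩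
  have hPp : ∀ j i, (P j i).Prime := fun j i => by rw [hP]; exact Nat.prime_nth_prime _
  have hPinj : ∀ j i j' i', P j i = P j' i' → j = j' ∧ i = i' := by
    intro j i j' i' h
    rw [hP, hP] at h
    have h1 := (Nat.nth_injective Nat.infinite_setOfPred_prime) h
    have h2 : j * N + i = j' * N + i' := by omega
    have h3 := i.2
    have h4 := i'.2
    have h5 : j = j' := by
      rcases lt_trichotomy j j' with h | h | h
      · nlinarith
      · exact h
      · nlinarith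
    subst h5
    exact ⟨rfl, Fin.ext (by omega)⟩
  have hPbig : ∀ j i, N + 2 * D + 1 + k < P j i := by
    intro j i
    have h1 : N + 2 * D + 1 + k + (j * N + i) + 2 ≤ P j i := by
      rw [hP]; exact Nat.add_two_le_nth_prime _
    omega
  obtain ⟨J, hJ⟩ : ∃ J : Finset ℕ, J = (range (2 * D + 1)).filter (fun j => ∀ h ∈ H, j ≠ D + h) :=
    ⟨_, rfl⟩
  obtain ⟨S, hS⟩ : ∃ S : Finset ℕ, S = J.biUnion (fun j => univ.image (P j)) := ⟨_, rfl⟩
  have hSm : ∀ p, p ∈ S ↔ ∃ j ∈ J, ∃ i, P j i = p := by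
    intro p
    rw [hS, mem_biUnion]
    constructor
    · rintro ⟨j, hj, hp⟩
      obtain ⟨i, -, hi⟩ := mem_image.1 hp
      exact ⟨j, hj, i, hi⟩
    · rintro ⟨j, hj, i, hi⟩
      exact ⟨j, hj, mem_image.2 ⟨i, mem_univ _, hi⟩⟩
  have hSp : ∀ p ∈ S, p.Prime := by
    intro p hp
    obtain ⟨j, -, i, rfl⟩ := (hSm p).1 hp
    exact hPp j i
  have hSk' : ∀ p ∈ S, k < p := by
    intro p hp
    obtain ⟨j, -, i, rfl⟩ := (hSm p).1 hp
    have := hPbig j i
    omega
  obtain ⟨S3, hS3⟩ : ∃ S3 : Finset ℕ, S3 = Sk ∪ S := ⟨_, rfl⟩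
  have hS3p : ∀ p ∈ S3, p.Prime := by
    intro p hp
    rw [hS3, mem_union] at hp
    rcases hp with h | h
    · exact ((hSkm p).1 h).1
    · exact hSp p h
  obtain ⟨c, hcD, hc⟩ := Pool.Agent.Y887.TD.crt_pow S3 hS3p k
    (fun p => if h : ∃ x : ℕ × Fin N, P x.1 x.2 = p then (D : ℤ) - h.choose.1 else (xs p : ℤ))
    (D + 1)
  have hc' : ∀ j ∈ J, ∀ i, (P j i : ℤ) ∣ (c : ℤ) - (D - j) := by
    intro j hj i
    have h1 := hc (P j i) (by rw [hS3, mem_union]; exact Or.inr ((hSm _).2 ⟨j, hj, i, rfl⟩))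
    have h2 : ∃ x : ℕ × Fin N, P x.1 x.2 = P j i := ⟨(j, i), rfl⟩
    rw [dif_pos h2, (hPinj _ _ _ _ h2.choose_spec).1] at h1
    exact (dvd_pow_self _ (by omega)).trans h1
  have hcs : ∀ p ∈ Sk, (p : ℤ) ^ k ∣ (c : ℤ) - xs p := by
    intro p hp
    have h1 := hc p (by rw [hS3, mem_union]; exact Or.inl hp)
    have h2 : ¬ ∃ x : ℕ × Fin N, P x.1 x.2 = p := by
      rintro ⟨x, hx⟩
      have h3 := hPbig x.1 x.2
      have h4 := ((hSkm p).1 hp).2
      omega
    rw [dif_neg h2] at h1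
    exact h1
  have hcsk : ∀ p ∈ Sk, ∀ h ∈ H, ¬ p ^ k ∣ c + h := by
    intro p hp h hh hd
    apply (hxs p ((hSkm p).1 hp).1).1 h hh
    have h1 : (p : ℤ) ^ k ∣ ((c + h : ℕ) : ℤ) := by exact_mod_cast hd
    have h2 := dvd_sub h1 (hcs p hp)
    have e1 : ((c + h : ℕ) : ℤ) - ((c : ℤ) - xs p) = ((xs p + h : ℕ) : ℤ) := by
      push_cast; ring
    rw [e1] at h2
    exact_mod_cast h2
  have hcadm : ∀ p ∈ Sk, (∃ r : ℕ, r < p ∧ ∀ h ∈ H, h % p ≠ r) → ∀ h ∈ H, ¬ p ∣ c + h := by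
    intro p hp hr h hh hd
    apply (hxs p ((hSkm p).1 hp).1).2 hr h hh
    have h1 : (p : ℤ) ∣ ((c + h : ℕ) : ℤ) := by exact_mod_cast hd
    have h2 := dvd_sub h1 ((dvd_pow_self (p : ℤ) (by omega : k ≠ 0)).trans (hcs p hp))
    have e1 : ((c + h : ℕ) : ℤ) - ((c : ℤ) - xs p) = ((xs p + h : ℕ) : ℤ) := by
      push_cast; ring
    rw [e1] at h2
    exact_mod_cast h2
  -- the private primes do not divide the values at the positions of `H`
  have hcS : ∀ p ∈ S, ∀ h ∈ H, ¬ p ∣ c + h := by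
    intro p hp h hh hd
    obtain ⟨j, hj, i', hji⟩ := (hSm p).1 hp
    have h1 := hc' j hj i'
    rw [hji] at h1
    have h2 : (p : ℤ) ∣ (D : ℤ) + h - j := by
      have h3 : (p : ℤ) ∣ ((c + h : ℕ) : ℤ) := by exact_mod_cast hd
      have e1 : (D : ℤ) + h - j = ((c + h : ℕ) : ℤ) - ((c : ℤ) - (D - j)) := by
        push_cast
        ring
      rw [e1]
      exact dvd_sub h3 h1
    have hjJ := hj
    rw [hJ, mem_filter, mem_range] at hjJ
    have h3 := hjJ.2 _ hh
    have h4 := hD _ hh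
    have h5 := hPbig j i'
    rw [hji] at h5
    have h6 : (D : ℤ) + h - j = 0 := by
      apply Int.eq_zero_of_abs_lt_dvd h2
      rw [abs_lt]
      constructor <;> omega
    omega
  -- the modulus
  obtain ⟨q1, hq1⟩ : ∃ q1 : ℕ, q1 = ∏ p ∈ Sk, p ^ k := ⟨_, rfl⟩
  obtain ⟨q2, hq2⟩ : ∃ q2 : ℕ, q2 = ∏ p ∈ S, p := ⟨_, rfl⟩
  obtain ⟨q, hq⟩ : ∃ q : ℕ, q = q1 * q2 := ⟨_, rfl⟩
  have hq1pos : 1 ≤ q1 := by
    rw [hq1]; exact prod_pos fun p hp => pow_pos ((hSkm p).1 hp).1.pos _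
  have hq2pos : 1 ≤ q2 := by rw [hq2]; exact prod_pos fun p hp => (hSp p hp).pos
  have hqpos : 1 ≤ q := by rw [hq]; exact Nat.mul_pos hq1pos hq2pos
  have hq1p : ∀ p : ℕ, p.Prime → p ∣ q1 → p ∈ Sk := by
    intro p hp hd
    rw [hq1] at hd
    obtain ⟨p', hp', hpp⟩ := (Prime.dvd_finsetProd_iff hp.prime _).1 hd
    have := (Nat.prime_dvd_prime_iff_eq hp ((hSkm p').1 hp').1).1 (hp.dvd_of_dvd_pow hpp)
    rwa [this]
  have hq2p : ∀ p : ℕ, p.Prime → p ∣ q2 → p ∈ S := by
    intro p hp hd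
    rw [hq2] at hd
    obtain ⟨p', hp', hpp⟩ := (Prime.dvd_finsetProd_iff hp.prime _).1 hd
    have := (Nat.prime_dvd_prime_iff_eq hp (hSp p' hp')).1 hpp
    rwa [this]
  have hq1k : ∀ p ∈ Sk, p ^ k ∣ q1 := by
    intro p hp
    rw [hq1]
    exact dvd_prod_of_mem (fun p => p ^ k) hp
  obtain ⟨Q, hQ⟩ : ∃ Q : ℕ, Q = N + ∑ p ∈ S, p := ⟨_, rfl⟩
  -- the small parts
  obtain ⟨g, hg⟩ : ∃ g : ℕ → ℕ, ∀ h, g h = Nat.gcd q1 (c + h) := ⟨_, fun _ => rfl⟩
  have hgq1 : ∀ h, g h ∣ q1 := fun h => by rw [hg]; exact Nat.gcd_dvd_left _ _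
  have hgc : ∀ h, g h ∣ c + h := fun h => by rw [hg]; exact Nat.gcd_dvd_right _ _
  have hgpos : ∀ h, 0 < g h := fun h => Nat.pos_of_dvd_of_pos (hgq1 h) hq1pos
  have hgfac : ∀ h ∈ H, ∀ p ∈ Sk, (g h).factorization p = (c + h).factorization p ∧
      (c + h).factorization p < k ∧ k ≤ q1.factorization p := by
    intro h hh p hp
    have hpp := ((hSkm p).1 hp).1
    have hne : c + h ≠ 0 := by omega
    have h1 : (c + h).factorization p < k := by
      by_contra hle
      push Not at hle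
      exact hcsk p hp h hh ((hpp.pow_dvd_iff_le_factorization hne).2 hle)
    have h2 : k ≤ q1.factorization p :=
      (hpp.pow_dvd_iff_le_factorization (by omega)).1 (hq1k p hp)
    refine ⟨?_, h1, h2⟩
    rw [hg, Nat.factorization_gcd (by omega) hne, Finsupp.inf_apply]
    exact min_eq_right (by omega)
  obtain ⟨aa, haa⟩ : ∃ aa : ℕ → ℕ, ∀ h, q = g h * aa h :=
    ⟨fun h => q / g h, fun h => by
      rw [Nat.mul_div_cancel']
      rw [hq]; exact (hgq1 h).mul_right _⟩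
  obtain ⟨bb, hbb⟩ : ∃ bb : ℕ → ℕ, ∀ h, c + h = g h * bb h :=
    ⟨fun h => (c + h) / g h, fun h => (Nat.mul_div_cancel' (hgc h)).symm⟩
  have haapos : ∀ h, 1 ≤ aa h := by
    intro h
    have := haa h
    by_contra h0
    have h1 : aa h = 0 := by omega
    rw [h1, mul_zero] at this
    omega
  have haap : ∀ h ∈ H, ∀ p ∈ Sk, p ∣ aa h := by
    intro h hh p hp
    have hpp := ((hSkm p).1 hp).1
    obtain ⟨h1, h2, h3⟩ := hgfac h hh p hp
    have h4 : p ^ k ∣ g h * aa h := by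
      rw [← haa h, hq]
      exact (hq1k p hp).mul_right _
    by_contra hnd
    have h5 : Nat.Coprime (p ^ k) (aa h) :=
      Nat.Coprime.pow_left _ ((Nat.Prime.coprime_iff_not_dvd hpp).2 hnd)
    have h6 := h5.dvd_of_dvd_mul_right h4
    have h7 := (hpp.pow_dvd_iff_le_factorization (hgpos h).ne').1 h6
    omega
  have hbbp : ∀ h ∈ H, ∀ p ∈ Sk, ¬ p ∣ bb h := by
    intro h hh p hp hd
    have hpp := ((hSkm p).1 hp).1
    obtain ⟨h1, h2, h3⟩ := hgfac h hh p hp
    have hne : c + h ≠ 0 := by omega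
    have h4 : p ^ ((g h).factorization p + 1) ∣ c + h := by
      rw [hbb h, pow_succ]
      exact mul_dvd_mul (Nat.ordProj_dvd _ _) hd
    have h5 := (hpp.pow_dvd_iff_le_factorization hne).1 h4
    omega
  have hgp : ∀ h, ∀ p : ℕ, p.Prime → p ∣ g h → p ∈ Sk := fun h p hp hd =>
    hq1p p hp (hd.trans (hgq1 h))
  have haaS : ∀ h, ∀ p ∈ S, p ∣ aa h := by
    intro h p hp
    have hpp := hSp p hp
    have h1 : p ∣ g h * aa h := by
      rw [← haa h, hq, hq2]
      exact (dvd_prod_of_mem (fun p => p) hp).mul_left _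
    rcases (hpp.dvd_mul).1 h1 with h2 | h2
    · have h3 := ((hSkm p).1 (hgp h p hpp h2)).2
      have h4 := hSk' p hp
      omega
    · exact h2
  -- the forms
  have hHF : Fintype.card H = k - 1 + 1 := by
    rw [Fintype.card_coe, hcard]; omega
  obtain ⟨eH⟩ : Nonempty (H ≃ Fin (k - 1 + 1)) := ⟨Fintype.equivFinOfCardEq hHF⟩
  choose Lγ hLγ1 hLγ2 using fun i : Fin (k - 1 + 1) =>
    exists_list f (γ (eH.symm i : ℕ)) (hγ _ (eH.symm i).2)
  choose Lf hLf1 hLf2 using fun h : ℕ => (show ∃ L : List ℕ, (h ∈ H → ∀ m ∈ L, 1 ≤ m) ∧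
      (h ∈ H → Fm f' (g h) * (L.map f').prod = Ψ) by
    by_cases hh : h ∈ H
    · obtain ⟨L, h1, h2⟩ := filler Sk (fun p => (g h).factorization p) k Z1
        (by rw [hZ1, hSk]) (by
          intro p hp
          have := hgfac h hh p hp
          show (g h).factorization p ≤ k
          omega)
      refine ⟨L, fun _ => h1, fun _ => ?_⟩
      rw [hΨ, ← h2 f' hf'0, Fm_prod hf'0 (S := Sk)]
      intro p hp
      exact hgp h p (Nat.prime_of_mem_primeFactors hp) (Nat.dvd_of_mem_primeFactors hp)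
    · exact ⟨[], fun h => absurd h hh, fun h => absurd h hh⟩)
  obtain ⟨C, hC⟩ := hmain (fun i => (aa (eH.symm i : ℕ) : ℤ)) (fun i => (bb (eH.symm i : ℕ) : ℤ))
    (fun i => by exact_mod_cast haapos _)
    (by
      intro i j hij hh
      apply hij
      have h1 : aa (eH.symm i : ℕ) = aa (eH.symm j : ℕ) := by exact_mod_cast hh.1
      have h2 : bb (eH.symm i : ℕ) = bb (eH.symm j : ℕ) := by exact_mod_cast hh.2
      have h3 : g (eH.symm i : ℕ) = g (eH.symm j : ℕ) := by
        have h4 := haa (eH.symm i : ℕ)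
        have h5 := haa (eH.symm j : ℕ)
        rw [h1] at h4
        exact Nat.eq_of_mul_eq_mul_right (haapos _) (h4.symm.trans h5)
      have h4 := hbb (eH.symm i : ℕ)
      have h5 := hbb (eH.symm j : ℕ)
      rw [h2, h3] at h4
      have h6 : (eH.symm i : ℕ) = (eH.symm j : ℕ) := by omega
      exact eH.symm.injective (Subtype.ext h6))
    (by
      intro p hp
      by_cases hpk : p ∈ Sk
      · refine ⟨0, fun i hd => hbbp _ (eH.symm i).2 p hpk ?_⟩
        have h1 : (p : ℤ) ∣ (bb (eH.symm i : ℕ) : ℤ) := by simpa using hd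
        exact_mod_cast h1
      · by_cases hpS : p ∈ S
        · refine ⟨0, fun i hd => hcS p hpS _ (eH.symm i).2 ?_⟩
          have h1 : (p : ℤ) ∣ (bb (eH.symm i : ℕ) : ℤ) := by simpa using hd
          have h2 : p ∣ bb (eH.symm i : ℕ) := by exact_mod_cast h1
          rw [hbb]
          exact h2.mul_left _
        · have hpk2 : k < p := by
            by_contra hle
            exact hpk ((hSkm p).2 ⟨hp, by omega⟩)
          obtain ⟨x, hx⟩ := exists_nonroot hp (by rw [Fintype.card_fin]; omega)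
            (fun i : Fin (k - 1 + 1) => aa (eH.symm i : ℕ))
            (fun i : Fin (k - 1 + 1) => bb (eH.symm i : ℕ)) (by
              intro i hd
              have h1 : p ∣ q := by rw [haa (eH.symm i : ℕ)]; exact hd.mul_left _
              rw [hq, hp.dvd_mul] at h1
              rcases h1 with h1 | h1
              · exact hpk (hq1p p hp h1)
              · exact hpS (hq2p p hp h1))
          refine ⟨x, fun i hd => hx i ?_⟩
          exact_mod_cast hd)
    (fun i => Lf (eH.symm i : ℕ) ++ Lγ i)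
    (by
      intro i m hm
      rcases List.mem_append.1 hm with h | h
      · exact hLf1 _ (eH.symm i).2 m h
      · exact hLγ1 i m h)
    (Q + k)
  refine ⟨Q, q * C, by omega, ?_⟩
  refine count_map2 (E := Unit) (q + c) K (by omega) (fun _ m => q * m + c) ?_ ?_
    (fun X n => GoodV f' (fun i => (aa (eH.symm i : ℕ) : ℤ)) (fun i => (bb (eH.symm i : ℕ) : ℤ))
      (fun i => ((Lf (eH.symm i : ℕ) ++ Lγ i).map f').prod) Φ (Q + k) K C X n)
    (fun X n => (∀ m : ℕ, n ≤ m + D → m ≤ n + D → (∀ h ∈ H, m ≠ n + h) →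
            N ≤ (m.primeFactors.filter (fun p => p ≤ Q)).card) ∧
          ∀ h ∈ H, Fm f (n + h) = Φ * Ψ * γ h ∧
            (∀ p : ℕ, p.Prime → p ∣ n + h → Q < p ∨ p ≤ k ∧ ∀ r < p, ∃ h' ∈ H, h' % p = r) ∧
            ∃ c s : ℕ, n + h = c * s ∧ c ≤ q * C ∧ Squarefree s ∧
              ∀ p : ℕ, p.Prime → p ∣ s → X < p ^ (K + 1)) ?_ ?_
  · intro _ m m' hmm
    have h1 : q * m + c = q * m' + c := hmm
    exact Nat.eq_of_mul_eq_mul_left hqpos (by omega)
  · intro _ m hm
    show q * m + c ≤ (q + c) * m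
    nlinarith
  · filter_upwards [hC] with X hX
    refine hX.trans (le_of_eq ?_)
    congr 2
    ext n
    simp only [Set.mem_ofPred_eq]
    constructor
    · rintro ⟨h1, h2⟩
      exact ⟨h2.1, h1, h2⟩
    · rintro ⟨_, h1, h2⟩
      exact ⟨h1, h2⟩
  · filter_upwards [eventually_ge_atTop ((2 * (q + c)) ^ K)] with X1 hX1
    intro n _ _ hgood
    refine ⟨(), fun X2 hX2 => ?_⟩
    obtain ⟨-, hgood⟩ := hgood
    refine ⟨?_, ?_⟩
    · intro m hm1 hm2 hmH
      have hm1' : q * n + c ≤ m + D := hm1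
      have hm2' : m ≤ q * n + c + D := hm2
      have hmH' : ∀ h ∈ H, m ≠ q * n + c + h := hmH
      have hjJ : m + D - (q * n + c) ∈ J := by
        rw [hJ, mem_filter, mem_range]
        refine ⟨by omega, fun h hh heq => hmH' h hh ?_⟩
        omega
      have hm0 : m ≠ 0 := by omega
      obtain ⟨j, hj⟩ : ∃ j, j = m + D - (q * n + c) := ⟨_, rfl⟩
      rw [← hj] at hjJ
      have hdvd : ∀ i, P j i ∣ m := by
        intro i
        have h1 := hc' j hjJ i
        have h2 : (P j i : ℤ) ∣ (q : ℤ) := by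
          have : P j i ∣ q := by
            rw [hq, hq2]
            exact (dvd_prod_of_mem (fun p => p) ((hSm _).2 ⟨j, hjJ, i, rfl⟩)).mul_left _
          exact_mod_cast this
        have h3 : (P j i : ℤ) ∣ (m : ℤ) := by
          have e1 : (m : ℤ) = (q : ℤ) * n + ((c : ℤ) - (D - (j : ℤ))) := by
            omega
          rw [e1]
          exact dvd_add (h2.mul_right _) h1
        exact_mod_cast h3
      have hsub : univ.image (P j) ⊆ m.primeFactors.filter (fun p => p ≤ Q) := by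
        intro p hp
        obtain ⟨i, -, rfl⟩ := mem_image.1 hp
        rw [mem_filter]
        refine ⟨Nat.mem_primeFactors.2 ⟨hPp j i, hdvd i, hm0⟩, ?_⟩
        have h6 : P j i ≤ ∑ p ∈ S, p :=
          single_le_sum (f := fun p => p) (fun _ _ => Nat.zero_le _) ((hSm _).2 ⟨j, hjJ, i, rfl⟩)
        omega
      have h7 := card_le_card hsub
      rw [card_image_of_injective _ (fun i i' h => (hPinj _ _ _ _ h).2), card_univ,
        Fintype.card_fin] at h7
      exact h7
    · intro h hh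
      obtain ⟨c1, s1, h1, h2, h3, h4, h5, h6⟩ := hgood (eH ⟨h, hh⟩)
      simp only [Equiv.symm_apply_apply] at h1
      have hval0 : aa h * n + bb h = c1 * s1 := by
        have h7 : ((aa h * n + bb h : ℕ) : ℤ) = ((c1 * s1 : ℕ) : ℤ) := by
          rw [← h1]
          push_cast
          ring
        exact_mod_cast h7
      have hval : q * n + c + h = g h * (c1 * s1) := by
        rw [← hval0]
        have h8 := haa h
        have h9 := hbb h
        calc q * n + c + h = q * n + (c + h) := by ring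
          _ = g h * aa h * n + g h * bb h := by rw [← h8, ← h9]
          _ = _ := by ring
      have hγ2 := hLγ2 (eH ⟨h, hh⟩)
      simp only [Equiv.symm_apply_apply] at hγ2
      have hcs1 : c1 * s1 ≠ 0 := by
        intro h0
        rw [h0, mul_zero] at hval
        omega
      have hcop : Nat.Coprime (g h) (c1 * s1) := by
        apply Nat.coprime_of_dvd
        intro p hp hpg hpc
        have h8 := ((hSkm p).1 (hgp h p hp hpg)).2
        have h9 := h5 p hp hpc
        omega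
      refine ⟨?_, ?_, g h * c1, s1, ?_, ?_, h3, ?_⟩
      · show Fm f (q * n + c + h) = Φ * Ψ * γ h
        rw [hval, Fm_congr (fun k hk => (hf' k hk).symm), Fm_mul f' (hgpos h).ne' hcs1 hcop, h6]
        have h8 : ((Lf (((eH.symm (eH ⟨h, hh⟩)) : H) : ℕ) ++ Lγ (eH ⟨h, hh⟩)).map f').prod =
            ((Lf h).map f').prod * γ h := by
          rw [List.map_append, List.prod_append]
          congr 1
          · simp only [Equiv.symm_apply_apply]
          · rw [← hγ2]
            congr 1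
            apply List.map_congr_left
            intro m hm
            exact hf' m (hLγ1 _ m hm)
        beta_reduce
        rw [h8, ← hLf2 h hh]
        ac_rfl
      · intro p hp hpd
        have hpd' : p ∣ q * n + c + h := hpd
        rw [hval, hp.dvd_mul] at hpd'
        rcases hpd' with h8 | h8
        · right
          have h9 := hgp h p hp h8
          refine ⟨((hSkm p).1 h9).2, ?_⟩
          by_contra hcon
          push Not at hcon
          obtain ⟨r, hr, hrH⟩ := hcon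
          exact hcadm p h9 ⟨r, hr, hrH⟩ h hh (h8.trans (hgc h))
        · left
          have := h5 p hp h8
          omega
      · show q * n + c + h = g h * c1 * s1
        rw [hval, mul_assoc]
      · apply Nat.mul_le_mul _ h2
        exact (Nat.le_of_dvd hq1pos (hgq1 h)).trans (by rw [hq]; exact Nat.le_mul_of_pos_right _ hq2pos)
      · intro p hp hpd
        have h7 := h4 p hp hpd
        have h8 : 2 * (q + c) < p := by
          by_contra hle
          push Not at hle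
          have h9 := Nat.pow_le_pow_left hle K
          omega
        calc X2 < 2 * (q + c) * X1 := hX2
          _ ≤ p * p ^ K := Nat.mul_le_mul h8.le h7.le
          _ = p ^ (K + 1) := by ring

end Pool.Agent.Y887.DE
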